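import Mathlib

/-! Groups with invariant neighbourhoods and with small invariant neighbourhoods. -/

open Topology

namespace Pool.Agent.Work.MP_dc0135_an.Hedge

/-- `G` is an IN-group: the identity has a compact neighbourhood invariant under all inner
automorphisms. -/
def IsIN (G : Type*) [Group G] [TopologicalSpace G] : Prop :=
  ∃ C ∈ 𝓝 (1 : G), IsCompact C ∧ ∀ g : G, ∀ x ∈ C, g * x * g⁻¹ ∈ C

/-- `G` is a SIN-group: the identity has a neighbourhood base of sets invariant under all inner
automorphisms. -/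
def IsSIN (G : Type*) [Group G] [TopologicalSpace G] : Prop :=
  ∀ U ∈ 𝓝 (1 : G), ∃ V ∈ 𝓝 (1 : G), V ⊆ U ∧ ∀ g : G, ∀ x ∈ V, g * x * g⁻¹ ∈ V

end Pool.Agent.Work.MP_dc0135_an.Hedge
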