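import Mathlib
import Pool.Agent.Work.MP_dc0135_an.Tensor
import Pool.Agent.Work.MP_dc0135_an.Hedge.HDefs

-- merged part: Pool.Agent.Work.MP_dc0135_an.Hedge.HAlg
section
/-! Hilbert algebras with a group of unitary multipliers: the algebraic core of the commutator
obstruction to approximate diagonals. -/

open scoped InnerProductSpace ComplexConjugate
open Complex (I)

namespace Pool.Agent.Work.MP_dc0135_an.Hedge

/-- A star algebra `B` densely embedded in a Hilbert space `H` with a tracial inner product,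
together with left translations by a group `G`. -/
structure HAlg (G B H : Type*) [Group G] [NonUnitalRing B] [Module ℂ B] [Star B]
    [NormedAddCommGroup H] [InnerProductSpace ℂ H] where
  i : B →ₗ[ℂ] H
  L : B →ₗ[ℂ] H →L[ℂ] H
  J : H →L⋆[ℂ] H
  lam : G → H →L[ℂ] H
  lamB : G → B →ₗ[ℂ] B
  i_mul : ∀ a b, i (a * b) = L a (i b)
  inner_L : ∀ a x y, ⟪L (star a) x, y⟫_ℂ = ⟪x, L a y⟫_ℂ
  J_i : ∀ a, J (i a) = i (star a)
  inner_J : ∀ x y, ⟪J x, J y⟫_ℂ = ⟪y, x⟫_ℂ
  J_J : ∀ x, J (J x) = x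
  dense : DenseRange i
  inj : Function.Injective i
  lam_mul : ∀ g h x, lam (g * h) x = lam g (lam h x)
  lam_one : ∀ x, lam 1 x = x
  inner_lam : ∀ g x y, ⟪lam g x, lam g y⟫_ℂ = ⟪x, y⟫_ℂ
  i_lam : ∀ g a, i (lamB g a) = lam g (i a)
  L_lam : ∀ g a x, L (lamB g a) x = lam g (L a x)
  lam_comm : ∀ g h x, lam g (J (lam h (J x))) = J (lam h (J (lam g x)))

section Res

variable {H : Type*} [NormedAddCommGroup H] [InnerProductSpace ℂ H] [CompleteSpace H]

theorem exists_resolvent (S : H →L[ℂ] H) (hS : star S = S) :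
    ∃ R : H →L[ℂ] H, R * (1 + I • S) = 1 ∧ (1 + I • S) * R = 1 ∧ ‖R‖ ≤ 1 := by
  have hsa : IsSelfAdjoint S := hS
  have h1 : I ∉ spectrum ℂ S := by
    intro h
    have := hsa.mem_spectrum_eq_re h
    simp at this
  rw [spectrum.notMem_iff] at h1
  have h2 : IsUnit ((1 : H →L[ℂ] H) + I • S) := by
    have h3 : (1 : H →L[ℂ] H) + I • S =
        algebraMap ℂ (H →L[ℂ] H) (-I) * (algebraMap ℂ (H →L[ℂ] H) I - S) := by
      rw [mul_sub, ← map_mul, ← Algebra.smul_def]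
      simp
    rw [h3]
    exact ((IsUnit.mk0 (-I) (by simp)).map _).mul h1
  obtain ⟨u, hu⟩ := h2
  refine ⟨↑u⁻¹, by rw [← hu]; simp, by rw [← hu]; simp, ?_⟩
  have key : ∀ v : H, ‖v‖ ≤ ‖(1 + I • S) v‖ := by
    intro v
    have hre : (⟪v, S v⟫_ℂ).im = 0 := by
      have h4 : ⟪S v, v⟫_ℂ = ⟪v, S v⟫_ℂ := by
        conv_lhs => rw [← hS]
        exact ContinuousLinearMap.adjoint_inner_left S v v
      have h5 := inner_conj_symm (𝕜 := ℂ) (S v) v
      rw [h4] at h5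
      exact Complex.conj_eq_iff_im.1 h5
    have h6 : ‖v‖ ^ 2 = (⟪v, (1 + I • S) v⟫_ℂ).re := by
      simp only [add_apply, one_apply_eq_self,
        smul_apply, inner_add_right, inner_smul_right, Complex.add_re,
        Complex.mul_re, Complex.I_re, Complex.I_im, hre]
      have h8 := inner_self_eq_norm_sq (𝕜 := ℂ) v
      simp only [RCLike.re_to_complex] at h8
      rw [h8]
      ring
    have h7 : ‖v‖ ^ 2 ≤ ‖v‖ * ‖(1 + I • S) v‖ := by
      rw [h6]
      exact (Complex.re_le_norm _).trans (norm_inner_le_norm _ _)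
    rcases (norm_nonneg v).eq_or_lt with h0 | h0
    · rw [← h0]; exact norm_nonneg _
    · nlinarith
  refine ContinuousLinearMap.opNorm_le_bound _ zero_le_one fun x => ?_
  rw [one_mul]
  refine (key _).trans (le_of_eq ?_)
  rw [← hu, ← mul_apply_eq_comp]
  simp

omit [CompleteSpace H] in
theorem commute_inv {X R U : H →L[ℂ] H} (h1 : R * U = 1) (h2 : U * R = 1) (h : Commute X U) :
    Commute X R := by
  calc X * R = R * U * X * R := by rw [h1, one_mul]
    _ = R * (X * U) * R := by rw [h.eq, mul_assoc R]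
    _ = R * X * (U * R) := by simp only [mul_assoc]
    _ = R * X := by rw [h2, mul_one]

theorem norm_add_sq_le (x y : H →L[ℂ] H) (hx : star x = x) (hy : star y = y) (M e : ℝ)
    (hM : 0 ≤ M) (h1 : ‖x‖ ≤ M) (h2 : ‖y‖ ≤ M) (h3 : ‖x * y‖ ≤ e) :
    ‖x + y‖ ^ 2 ≤ M ^ 2 + 4 * e := by
  have he : 0 ≤ e := (norm_nonneg _).trans h3
  have ix : ∀ u v : H, ⟪x u, v⟫_ℂ = ⟪u, x v⟫_ℂ := fun u v => by
    conv_lhs => rw [← hx]
    exact ContinuousLinearMap.adjoint_inner_left x v u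
  have iy : ∀ u v : H, ⟪y u, v⟫_ℂ = ⟪u, y v⟫_ℂ := fun u v => by
    conv_lhs => rw [← hy]
    exact ContinuousLinearMap.adjoint_inner_left y v u
  have cross : ∀ u v : H, ‖⟪x u, y v⟫_ℂ‖ ≤ e * (‖u‖ * ‖v‖) := fun u v => by
    rw [ix, ← mul_apply_eq_comp]
    calc _ ≤ ‖u‖ * ‖(x * y) v‖ := norm_inner_le_norm _ _
      _ ≤ ‖u‖ * (e * ‖v‖) := by
        gcongr
        exact ((x * y).le_opNorm v).trans (by gcongr)
      _ = _ := by ring
  have key : ∀ v : H, ‖(x + y) v‖ ^ 2 ≤ (M ^ 2 + 4 * e) * ‖v‖ ^ 2 := by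
    intro v
    set S := ‖x v‖ ^ 2 + ‖y v‖ ^ 2 with hS
    have hS0 : 0 ≤ S := by positivity
    have a1 : S ≤ ‖v‖ * ‖x (x v) + y (y v)‖ := by
      have : (S : ℂ) = ⟪v, x (x v) + y (y v)⟫_ℂ := by
        rw [inner_add_right, ← ix, ← iy, inner_self_eq_norm_sq_to_K, inner_self_eq_norm_sq_to_K,
          hS]
        push_cast
        rfl
      have h4 := norm_inner_le_norm (𝕜 := ℂ) v (x (x v) + y (y v))
      rw [← this, Complex.norm_real, Real.norm_of_nonneg hS0] at h4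
      exact h4
    have bx : ∀ u, ‖x u‖ ≤ M * ‖u‖ := fun u => (x.le_opNorm u).trans (by gcongr)
    have by' : ∀ u, ‖y u‖ ≤ M * ‖u‖ := fun u => (y.le_opNorm u).trans (by gcongr)
    have a2 : ‖x (x v) + y (y v)‖ ^ 2 ≤ M ^ 2 * S + 2 * (e * (M ^ 2 * ‖v‖ ^ 2)) := by
      rw [@norm_add_sq ℂ]
      have b1 : ‖x (x v)‖ ^ 2 ≤ (M * ‖x v‖) ^ 2 := by gcongr; exact bx _
      have b2 : ‖y (y v)‖ ^ 2 ≤ (M * ‖y v‖) ^ 2 := by gcongr; exact by' _
      have b3 : RCLike.re ⟪x (x v), y (y v)⟫_ℂ ≤ e * (M ^ 2 * ‖v‖ ^ 2) := by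
        refine (RCLike.re_le_norm _).trans ((cross _ _).trans ?_)
        have : ‖x v‖ * ‖y v‖ ≤ (M * ‖v‖) * (M * ‖v‖) := by
          gcongr
          · exact bx _
          · exact by' _
        exact mul_le_mul_of_nonneg_left (this.trans (le_of_eq (by ring))) he
      rw [hS]
      nlinarith
    have a3 : S ≤ (M ^ 2 + 2 * e) * ‖v‖ ^ 2 := by
      by_contra hc
      push Not at hc
      have c1 : S ^ 2 ≤ ‖v‖ ^ 2 * (M ^ 2 * S + 2 * (e * (M ^ 2 * ‖v‖ ^ 2))) := by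
        calc S ^ 2 ≤ (‖v‖ * ‖x (x v) + y (y v)‖) ^ 2 := by gcongr
          _ = ‖v‖ ^ 2 * ‖x (x v) + y (y v)‖ ^ 2 := by ring
          _ ≤ _ := by gcongr
      set n := ‖v‖ ^ 2
      have hn : 0 ≤ n := by positivity
      have c2 : M ^ 2 * n ≤ S := by nlinarith [mul_nonneg he hn]
      have c3 : 0 < S := lt_of_le_of_lt (by positivity) hc
      have c4 : (M ^ 2 + 2 * e) * n * S < S * S := by gcongr
      have c5 : 2 * e * n * (M ^ 2 * n) ≤ 2 * e * n * S := by gcongr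
      nlinarith
    rw [add_apply, @norm_add_sq ℂ]
    have b3 : RCLike.re ⟪x v, y v⟫_ℂ ≤ e * (‖v‖ * ‖v‖) :=
      (RCLike.re_le_norm _).trans (cross _ _)
    nlinarith
  have h0 : 0 ≤ M ^ 2 + 4 * e := by positivity
  have : ‖x + y‖ ≤ √(M ^ 2 + 4 * e) := by
    refine ContinuousLinearMap.opNorm_le_bound _ (Real.sqrt_nonneg _) fun v => ?_
    refine (sq_le_sq₀ (norm_nonneg _) (by positivity)).1 ?_
    rw [mul_pow, Real.sq_sqrt h0]
    exact key v
  calc ‖x + y‖ ^ 2 ≤ √(M ^ 2 + 4 * e) ^ 2 := by gcongr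
    _ = _ := Real.sq_sqrt h0

end Res

namespace HAlg

variable {G B H : Type*} [Group G] [NonUnitalRing B] [Module ℂ B] [StarRing B]
  [NormedAddCommGroup H] [InnerProductSpace ℂ H] [CompleteSpace H] (S : HAlg G B H)

omit [CompleteSpace H] in
theorem ext_i {X Y : H →L[ℂ] H} (h : ∀ a, X (S.i a) = Y (S.i a)) : X = Y := by
  ext x
  exact congrFun (S.dense.equalizer X.continuous Y.continuous (funext h)) x

omit [CompleteSpace H] in
theorem ext_inner {x y : H} (h : ∀ a, ⟪S.i a, x⟫_ℂ = ⟪S.i a, y⟫_ℂ) : x = y := by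
  refine ext_inner_left ℂ fun v => ?_
  exact congrFun (S.dense.equalizer (g := fun v => ⟪v, x⟫_ℂ) (h := fun v => ⟪v, y⟫_ℂ)
    (by fun_prop) (by fun_prop) (funext h)) v

omit [CompleteSpace H] in
theorem L_mul (a b : B) : S.L (a * b) = S.L a * S.L b :=
  S.ext_i fun c => by
    rw [mul_apply_eq_comp, ← S.i_mul, ← S.i_mul, ← S.i_mul, mul_assoc]

theorem L_star (a : B) : S.L (star a) = star (S.L a) :=
  (ContinuousLinearMap.eq_adjoint_iff _ _).2 (S.inner_L a)

omit [CompleteSpace H] in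
theorem norm_J (x : H) : ‖S.J x‖ = ‖x‖ := by
  have h := S.inner_J x x
  rw [inner_self_eq_norm_sq_to_K, inner_self_eq_norm_sq_to_K] at h
  have h2 : ‖S.J x‖ ^ 2 = ‖x‖ ^ 2 := by exact_mod_cast h
  exact (sq_eq_sq₀ (norm_nonneg _) (norm_nonneg _)).1 h2

omit [CompleteSpace H] in
theorem norm_i_star (a : B) : ‖S.i (star a)‖ = ‖S.i a‖ := by rw [← S.J_i, norm_J]

omit [CompleteSpace H] in
theorem norm_lam (g : G) (x : H) : ‖S.lam g x‖ = ‖x‖ := by
  have h := S.inner_lam g x x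
  rw [inner_self_eq_norm_sq_to_K, inner_self_eq_norm_sq_to_K] at h
  have h2 : ‖S.lam g x‖ ^ 2 = ‖x‖ ^ 2 := by exact_mod_cast h
  exact (sq_eq_sq₀ (norm_nonneg _) (norm_nonneg _)).1 h2

omit [CompleteSpace H] in
theorem opNorm_lam (g : G) : ‖S.lam g‖ ≤ 1 :=
  ContinuousLinearMap.opNorm_le_bound _ zero_le_one fun x => by rw [S.norm_lam, one_mul]

omit [CompleteSpace H] in
theorem lam_inv (g : G) (x : H) : S.lam g⁻¹ (S.lam g x) = x := by
  rw [← S.lam_mul, inv_mul_cancel, S.lam_one]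

omit [CompleteSpace H] in
theorem lam_inv' (g : G) (x : H) : S.lam g (S.lam g⁻¹ x) = x := by
  rw [← S.lam_mul, mul_inv_cancel, S.lam_one]

omit [CompleteSpace H] in
theorem inner_lam_left (g : G) (x y : H) : ⟪S.lam g x, y⟫_ℂ = ⟪x, S.lam g⁻¹ y⟫_ℂ := by
  rw [← S.inner_lam g x, S.lam_inv']

/-- Conjugation of an operator by `J`. -/
noncomputable def cj (X : H →L[ℂ] H) : H →L[ℂ] H := S.J.comp (X.comp S.J)

omit [CompleteSpace H] in
theorem cj_apply (X : H →L[ℂ] H) (x : H) : S.cj X x = S.J (X (S.J x)) := rfl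

omit [CompleteSpace H] in
theorem cj_mul (X Y : H →L[ℂ] H) : S.cj (X * Y) = S.cj X * S.cj Y := by
  ext x; simp [cj_apply, S.J_J]

omit [CompleteSpace H] in
theorem cj_one : S.cj 1 = 1 := by
  ext x; simp [cj_apply, S.J_J]

omit [CompleteSpace H] in
theorem cj_cj (X : H →L[ℂ] H) : S.cj (S.cj X) = X := by
  ext x; simp [cj_apply, S.J_J]

omit [CompleteSpace H] in
theorem cj_add (X Y : H →L[ℂ] H) : S.cj (X + Y) = S.cj X + S.cj Y := by
  ext x; simp [cj_apply]

omit [CompleteSpace H] in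
theorem cj_sub (X Y : H →L[ℂ] H) : S.cj (X - Y) = S.cj X - S.cj Y := by
  ext x; simp [cj_apply]

omit [CompleteSpace H] in
theorem cj_smul (c : ℂ) (X : H →L[ℂ] H) : S.cj (c • X) = conj c • S.cj X := by
  ext x; simp [cj_apply]

theorem inner_flip (X : H →L[ℂ] H) (a b : H) :
    ⟪S.J a, X b⟫_ℂ = ⟪S.J b, S.cj (star X) a⟫_ℂ := by
  rw [cj_apply, S.inner_J]
  exact (ContinuousLinearMap.adjoint_inner_left X b (S.J a)).symm

theorem star_cj (X : H →L[ℂ] H) : star (S.cj X) = S.cj (star X) := by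
  symm
  refine (ContinuousLinearMap.eq_adjoint_iff _ _).2 fun x y => ?_
  rw [cj_apply, cj_apply]
  conv_lhs => rw [← S.J_J y, S.inner_J]
  conv_rhs => rw [← S.J_J x, S.inner_J]
  exact ContinuousLinearMap.adjoint_inner_right X (S.J y) (S.J x)

/-- Right multiplication operator. -/
noncomputable def rho (a : B) : H →L[ℂ] H := S.cj (S.L (star a))

omit [CompleteSpace H] in
theorem rho_i (a b : B) : S.rho a (S.i b) = S.i (b * a) := by
  rw [rho, cj_apply, S.J_i, ← S.i_mul, S.J_i, star_mul, star_star, star_star]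

theorem star_rho (a : B) : star (S.rho a) = S.rho (star a) := by
  rw [rho, rho, star_cj, ← L_star]

theorem inner_rho (a : B) (x y : H) : ⟪x, S.rho a y⟫_ℂ = ⟪S.rho (star a) x, y⟫_ℂ := by
  rw [← star_rho]
  exact (ContinuousLinearMap.adjoint_inner_left _ y x).symm

/-- The operators that commute with all right multiplications. -/
def InL (X : H →L[ℂ] H) : Prop := ∀ a, Commute X (S.rho a)

omit [CompleteSpace H] in
theorem inL_L (a : B) : S.InL (S.L a) := fun b =>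
  S.ext_i fun c => by
    simp only [mul_apply_eq_comp, rho_i, ← S.i_mul, mul_assoc]

omit [CompleteSpace H] in
theorem inL_lam (g : G) : S.InL (S.lam g) := fun b =>
  S.ext_i fun c => by
    simp only [mul_apply_eq_comp, rho_i, ← S.i_lam]
    rw [S.i_lam, S.i_mul, S.i_mul, S.L_lam]

omit [CompleteSpace H] in
theorem inL_one : S.InL 1 := fun _ => Commute.one_left _

omit [CompleteSpace H] in
theorem InL.mul {S : HAlg G B H} {X Y : H →L[ℂ] H} (hX : S.InL X) (hY : S.InL Y) :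
    S.InL (X * Y) := fun a => (hX a).mul_left (hY a)

theorem InL.star {S : HAlg G B H} {X : H →L[ℂ] H} (hX : S.InL X) : S.InL (star X) := fun a => by
  have h := (hX (Star.star a)).star_star
  rwa [star_rho, star_star] at h

/-- The operator `X` is left multiplication by the vector `ξ`, in weak form. -/
def Pair (X : H →L[ℂ] H) (ξ : H) : Prop :=
  ∀ s t : B, ⟪S.i (star t), X (S.i s)⟫_ℂ = ⟪S.i (star (s * t)), ξ⟫_ℂ

theorem pair_of (X : H →L[ℂ] H) (ξ : H) (h : ∀ s, X (S.i s) = S.rho s ξ) : S.Pair X ξ :=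
  fun s t => by rw [h, inner_rho, rho_i, star_mul]

theorem Pair.star {S : HAlg G B H} {X : H →L[ℂ] H} {ξ : H} (h : S.Pair X ξ) :
    S.Pair (star X) (S.J ξ) := fun s t => by
  have h1 := h (Star.star t) (Star.star s)
  rw [star_star, star_mul, star_star, star_star] at h1
  have h2 : ⟪S.i (Star.star t), (Star.star X) (S.i s)⟫_ℂ = ⟪X (S.i (Star.star t)), S.i s⟫_ℂ :=
    ContinuousLinearMap.adjoint_inner_right X _ _
  rw [h2, ← inner_conj_symm, h1, inner_conj_symm, ← S.J_i, S.inner_J]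

/-- The resolvent trick: a self-adjoint element is replaced by a contraction. -/
theorem exists_contraction (h : B) (hh : star h = h) :
    ∃ (Y : H →L[ℂ] H) (ζ : H), S.InL Y ∧ ‖Y‖ ≤ 2 ∧ S.Pair Y ζ ∧
      (∀ (α : B) (ε : ℝ), 0 ≤ ε →
        (∀ X ξ, S.Pair X ξ → ‖⟪S.i (star (h * α - α * h)), ξ⟫_ℂ‖ ≤ ε * ‖X‖) →
        ∀ T : B, ‖⟪S.i (star (α * T - T * α)), ζ⟫_ℂ‖ ≤ ε * ‖S.L T‖) ∧
      ∀ b : B, ‖S.i b‖ ^ 2 ≤ 2 * ‖⟪S.i b, Y (S.i b)⟫_ℂ‖ + ‖S.i b‖ * ‖S.i (h * b) - S.i b‖ := by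
  have hL : star (S.L h) = S.L h := by rw [← L_star, hh]
  obtain ⟨R, h1, h2, h3⟩ := exists_resolvent (S.L h) hL
  set R' := S.cj (star R) with hR'
  have hU : S.cj (star (1 + I • S.L h)) = 1 + I • S.rho h := by
    rw [star_add, star_one, star_smul, hL, cj_add, cj_one, cj_smul, rho, hh]
    simp
  have h1' : R' * (1 + I • S.rho h) = 1 := by
    rw [← hU, hR', ← cj_mul, ← star_mul, h2, star_one, cj_one]
  have h2' : (1 + I • S.rho h) * R' = 1 := by
    rw [← hU, hR', ← cj_mul, ← star_mul, h1, star_one, cj_one]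
  have hRL : S.InL R := fun a =>
    (commute_inv h1 h2 ((Commute.one_right _).add_right
      ((S.inL_L h a).symm.smul_right _))).symm
  have hR'L : ∀ X, S.InL X → Commute X R' := fun X hX =>
    commute_inv h1' h2' ((Commute.one_right _).add_right ((hX h).smul_right _))
  have hY : 1 - R = I • (R * S.L h) := by
    rw [← h1, mul_add, mul_one, add_sub_cancel_left, mul_smul_comm]
  have hP : S.Pair (1 - R) (I • R (S.i h)) := by
    refine S.pair_of _ _ fun s => ?_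
    rw [hY, map_smul, ← mul_apply_eq_comp (S.rho s), ← (hRL s).eq]
    simp only [smul_apply, mul_apply_eq_comp, rho_i, S.i_mul]
  refine ⟨1 - R, I • R (S.i h), fun a => (Commute.one_left _).sub_left (hRL a), ?_, hP, ?_, ?_⟩
  · calc ‖1 - R‖ ≤ ‖(1 : H →L[ℂ] H)‖ + ‖R‖ := norm_sub_le _ _
      _ ≤ 1 + 1 := by gcongr; exact ContinuousLinearMap.norm_id_le
      _ = 2 := by norm_num
  · intro α ε hε hα T
    have hP2 : S.Pair (R * S.L T * R) (R (R' (S.i T))) := by
      refine S.pair_of _ _ fun s => ?_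
      rw [← mul_apply_eq_comp (S.rho s), ← (hRL s).eq]
      simp only [mul_apply_eq_comp]
      congr 1
      refine S.ext_inner fun t => ?_
      rw [inner_rho, rho_i, S.i_mul t, ← star_star t, S.inner_L,
        ← mul_apply_eq_comp (S.L (star t)), (hR'L _ (S.inL_L _)).eq,
        mul_apply_eq_comp, ← S.i_mul, ← S.J_i s, hR', ← inner_flip, S.J_i, star_mul,
        star_star, S.i_mul, S.inner_L]
    have e1 : ⟪S.i (star (α * T - T * α)), I • R (S.i h)⟫_ℂ =
        I * ⟪S.i (star (h * α - α * h)), R (R' (S.i T))⟫_ℂ := by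
      rw [star_sub, map_sub, inner_sub_left, ← hP, ← hP, ← S.J_i α, inner_flip, S.J_i T,
        ← inner_sub_right, ← sub_apply, star_sub, star_one, cj_sub, cj_one,
        ← hR']
      have e2 : 1 - R - (1 - R') = I • (R * R' * (S.L h - S.rho h)) := by
        have e3 : R * R' * ((1 + I • S.L h) - (1 + I • S.rho h)) = R' - R := by
          rw [mul_sub, mul_assoc R R' (1 + I • S.rho h), h1', (hR'L R hRL).eq, mul_assoc, h1,
            mul_one, mul_one]
        rw [← mul_smul_comm, smul_sub, ← add_sub_add_left_eq_sub (I • S.L h) _ (1 : H →L[ℂ] H), e3]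
        abel
      rw [e2, smul_apply, inner_smul_right, mul_apply_eq_comp,
        sub_apply, rho_i, ← S.i_mul, ← map_sub, ← S.J_i T, inner_flip,
        S.J_i, star_mul, cj_mul, ← hR', hR', star_cj, star_star, cj_cj,
        mul_apply_eq_comp]
    rw [e1, norm_mul, Complex.norm_I, one_mul]
    refine (hα _ _ hP2).trans ?_
    gcongr
    calc ‖R * S.L T * R‖ ≤ ‖R‖ * ‖S.L T‖ * ‖R‖ := by
          refine (norm_mul_le _ _).trans ?_
          gcongr
          exact norm_mul_le _ _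
      _ ≤ 1 * ‖S.L T‖ * 1 := by gcongr
      _ = _ := by ring
  · intro b
    have e1 : I • S.i b = (1 + I) • (1 - R) (S.i b) - I • R (S.i (h * b) - S.i b) := by
      have e2 := congrArg (fun X : H →L[ℂ] H => X (S.i b)) h1
      simp only [mul_apply_eq_comp, add_apply,
        one_apply_eq_self, smul_apply, map_add, map_smul] at e2
      rw [map_sub, S.i_mul, sub_apply, one_apply_eq_self]
      have e3 : I • R (S.L h (S.i b)) = S.i b - R (S.i b) := eq_sub_of_add_eq' e2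
      rw [smul_sub I, e3]
      module
    have e4 : ‖S.i b‖ ^ 2 = ‖⟪S.i b, I • S.i b⟫_ℂ‖ := by
      rw [inner_smul_right, norm_mul, Complex.norm_I, one_mul, inner_self_eq_norm_sq_to_K]
      simp
    rw [e4, e1, inner_sub_right, inner_smul_right, inner_smul_right]
    refine (norm_sub_le _ _).trans (add_le_add ?_ ?_)
    · rw [norm_mul]
      gcongr
      exact (norm_add_le _ _).trans (by simp; norm_num)
    · rw [norm_mul, Complex.norm_I, one_mul]
      refine (norm_inner_le_norm _ _).trans ?_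
      gcongr
      exact (R.le_opNorm _).trans (mul_le_of_le_one_left (norm_nonneg _) h3)

end HAlg

end Pool.Agent.Work.MP_dc0135_an.Hedge
end

-- merged part: Pool.Agent.Work.MP_dc0135_an.Hedge.Diag
section
/-! An approximate diagonal gives almost tracial, `L²`-bounded functionals. -/

open scoped InnerProductSpace ComplexConjugate TensorProduct
open Filter Topology

namespace Pool.Agent.Work.MP_dc0135_an.Hedge

namespace HAlg

variable {G B H : Type*} [Group G] [NonUnitalRing B] [Module ℂ B] [StarRing B]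
  [NormedAddCommGroup H] [InnerProductSpace ℂ H] [CompleteSpace H] (S : HAlg G B H)
  {A : Type*} [NonUnitalNormedRing A] [NormedSpace ℂ A] [IsScalarTower ℂ A A]
  [SMulCommClass ℂ A A] [CompleteSpace A] (ι : A →ₗ[ℂ] B) (hι : ∀ a b, ι (a * b) = ι a * ι b)
  (c : ℝ) (hc0 : 0 ≤ c) (hc : ∀ a, ‖S.i (ι a)‖ ≤ c * ‖a‖)

include hι hc0 hc

omit [CompleteSpace H] in
theorem pair_bound {X : H →L[ℂ] H} {ξ : H} (hP : S.Pair X ξ) (v : ProjSquare A) :
    ‖⟪S.i (star (ι (prodMapL A v))), ξ⟫_ℂ‖ ≤ c ^ 2 * ‖X‖ * ‖v‖ := by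
  let f : A →L[ℂ] H := (S.i.comp ι).mkContinuous c hc
  let ψ : A →L[ℂ] ℂ := (innerSL ℂ (S.J ξ)).comp f
  have hψ : ∀ a, ψ a = ⟪S.i (star (ι a)), ξ⟫_ℂ := fun a => by
    rw [← S.J_i]
    conv_rhs => rw [← S.J_J ξ, S.inner_J]
    rfl
  rw [← hψ]
  let m := ψ.compContinuousMultilinearMap (toMultilinear (ContinuousLinearMap.mul ℂ A))
  have hm : ‖m‖ ≤ c ^ 2 * ‖X‖ := by
    refine ContinuousMultilinearMap.opNorm_le_bound (by positivity) fun w => ?_
    have : m w = ψ (w 0 * w 1) := rfl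
    rw [this, hψ, hι, ← hP, Fin.prod_univ_two]
    calc _ ≤ ‖S.i (star (ι (w 1)))‖ * ‖X (S.i (ι (w 0)))‖ := norm_inner_le_norm _ _
      _ ≤ (c * ‖w 1‖) * (‖X‖ * (c * ‖w 0‖)) := by
        rw [norm_i_star]
        gcongr
        · exact hc _
        · exact (X.le_opNorm _).trans (by gcongr; exact hc _)
      _ = _ := by ring
  induction v using UniformSpace.Completion.induction_on with
  | hp => exact isClosed_le (by fun_prop) (by fun_prop)
  | ih t =>
    have e : ψ (prodMapL A t) = PiTensorProduct.lift m.toMultilinearMap t := by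
      simp only [prodMapL, ContinuousLinearMap.fromCompletion_apply_coe]
      induction t using PiTensorProduct.induction_on with
      | smul_tprod r w =>
        simp only [map_smul, PiTensorProduct.liftEquiv_apply, LinearMap.mkContinuous_apply,
          PiTensorProduct.lift.tprod]
        rfl
      | add x y hx hy => simp only [map_add, hx, hy]
    rw [e, UniformSpace.Completion.norm_coe]
    exact (PiTensorProduct.norm_eval_le_projectiveSeminorm m t).trans (by gcongr)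

theorem exists_functional [IsScalarTower ℂ B B] [SMulCommClass ℂ B B] [StarModule ℂ B]
    (hA : IsPseudoAmenable A) (α α' : Fin 2 → A) (hα : ∀ j, ι (α' j) = star (ι (α j)))
    (b : A) (hb : star (ι b) = ι b) (ε : ℝ) (hε : 0 < ε) :
    ∃ (Y : H →L[ℂ] H) (ζ : H), S.InL Y ∧ ‖Y‖ ≤ 2 ∧ S.Pair Y ζ ∧
      (∀ j (T : B), ‖⟪S.i (star (ι (α j) * T - T * ι (α j))), ζ⟫_ℂ‖ ≤ ε * ‖S.L T‖) ∧
      ‖S.i (ι b)‖ ^ 2 ≤ 2 * ‖⟪S.i (ι b), Y (S.i (ι b))⟫_ℂ‖ + ε * ‖S.i (ι b)‖ := by
  obtain ⟨l, hl, h⟩ := hA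
  set η := ε / (c ^ 2 + c + 1) with hη
  have hη0 : 0 < η := by positivity
  have hη1 : c ^ 2 * η ≤ ε := by
    rw [hη, ← mul_div_assoc, div_le_iff₀ (by positivity)]
    nlinarith [mul_nonneg hε.le hc0]
  have hη2 : c * η ≤ ε := by
    rw [hη, ← mul_div_assoc, div_le_iff₀ (by positivity)]
    nlinarith [mul_nonneg hε.le (sq_nonneg c)]
  have e1 : ∀ a, ∀ᶠ u in l, ‖lact a u - ract a u‖ < η := fun a => by
    have := (h a).1.norm
    rw [norm_zero] at this
    exact this.eventually (gt_mem_nhds hη0)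
  have h3 := (h b).2
  rw [prodMap_eq] at h3
  have h4 : Tendsto (fun u => b * prodMapL A u - prodMapL A u * b) l (𝓝 0) := by
    have := ((prodMapL A).continuous.tendsto 0).comp (h b).1
    simpa [Function.comp_def, prodMap_lact, prodMap_ract] using this
  have h5 : Tendsto (fun u => b * prodMapL A u) l (𝓝 b) := by
    simpa using h4.add h3
  have e2 : ∀ᶠ u in l, ‖prodMapL A u * b - b‖ < η :=
    (tendsto_iff_norm_sub_tendsto_zero.1 h3).eventually (gt_mem_nhds hη0)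
  have e3 : ∀ᶠ u in l, ‖b * prodMapL A u - b‖ < η :=
    (tendsto_iff_norm_sub_tendsto_zero.1 h5).eventually (gt_mem_nhds hη0)
  obtain ⟨u, u1, u2, u3, u4⟩ := ((eventually_all.2 fun j => e1 (α j)).and
    ((eventually_all.2 fun j => e1 (α' j)).and (e2.and e3))).exists
  set z := ι (prodMapL A u) with hz
  have key : ∀ a : A, ‖lact a u - ract a u‖ < η → ∀ X ξ, S.Pair X ξ →
      ‖⟪S.i (star (ι a * z - z * ι a)), ξ⟫_ℂ‖ ≤ ε * ‖X‖ := by
    intro a ha X ξ hP
    have := S.pair_bound ι hι c hc0 hc hP (lact a u - ract a u)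
    rw [map_sub, prodMap_lact, prodMap_ract, map_sub, hι, hι] at this
    refine this.trans ?_
    calc c ^ 2 * ‖X‖ * ‖lact a u - ract a u‖ ≤ c ^ 2 * ‖X‖ * η := by gcongr
      _ = c ^ 2 * η * ‖X‖ := by ring
      _ ≤ _ := by gcongr
  obtain ⟨Y, ζ, y1, y2, y3, y4, y5⟩ := S.exists_contraction ((1 / 2 : ℂ) • (z + star z))
    (by simp [add_comm])
  refine ⟨Y, ζ, y1, y2, y3, fun j => y4 _ ε hε.le fun X ξ hP => ?_, (y5 _).trans ?_⟩
  · have k1 := key _ (u1 j) X ξ hP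
    have k2 := key _ (u2 j) _ _ hP.star
    rw [norm_star, ← S.J_i, S.inner_J, norm_inner_symm] at k2
    have e : star ((1 / 2 : ℂ) • (z + star z) * ι (α j) - ι (α j) * (1 / 2 : ℂ) • (z + star z)) =
        (1 / 2 : ℂ) • ((ι (α' j) * z - z * ι (α' j)) - star (ι (α j) * z - z * ι (α j))) := by
      simp only [hα, smul_mul_assoc, mul_smul_comm, add_mul, mul_add, star_sub, star_smul,
        star_add, star_mul, star_star, smul_sub, smul_add]
      simp only [one_div, star_inv₀, star_ofNat]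
      abel
    rw [e, map_smul, inner_smul_left, map_sub, inner_sub_left, norm_mul]
    have : ‖(starRingEnd ℂ) (1 / 2 : ℂ)‖ = 1 / 2 := by simp
    rw [this]
    have := norm_sub_le ⟪S.i (ι (α' j) * z - z * ι (α' j)), ξ⟫_ℂ
      ⟪S.i (star (ι (α j) * z - z * ι (α j))), ξ⟫_ℂ
    linarith
  · rw [mul_comm ε]
    gcongr
    have k1 : ‖S.i (z * ι b - ι b)‖ ≤ ε := by
      rw [hz, ← hι, ← map_sub]
      exact (hc _).trans ((mul_le_mul_of_nonneg_left u3.le hc0).trans hη2)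
    have k2 : ‖S.i (star z * ι b - ι b)‖ ≤ ε := by
      rw [← norm_i_star, star_sub, star_mul, star_star, hb, hz, ← hι, ← map_sub]
      exact (hc _).trans ((mul_le_mul_of_nonneg_left u4.le hc0).trans hη2)
    have e : S.i ((1 / 2 : ℂ) • (z + star z) * ι b) - S.i (ι b) =
        (1 / 2 : ℂ) • (S.i (z * ι b - ι b) + S.i (star z * ι b - ι b)) := by
      simp only [smul_mul_assoc, add_mul, map_smul, map_add, map_sub]
      module
    rw [e, norm_smul]
    have := norm_add_le (S.i (z * ι b - ι b)) (S.i (star z * ι b - ι b))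
    have h2 : ‖(1 / 2 : ℂ)‖ = 1 / 2 := by simp
    rw [h2]
    linarith

end HAlg

end Pool.Agent.Work.MP_dc0135_an.Hedge
end

-- merged part: Pool.Agent.Work.MP_dc0135_an.Hedge.MainB
section
-- merged part: Pool.Agent.Work.MP_dc0135_an.Hedge.Mix
section
/-! Weak mixing of the conjugation action. -/

open scoped InnerProductSpace ComplexConjugate

namespace Pool.Agent.Work.MP_dc0135_an.Hedge

theorem exists_fixed_of_convex {G H : Type*} [NormedAddCommGroup H] [InnerProductSpace ℂ H]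
    [CompleteSpace H] (T : G → H → H) (hT : ∀ g x, ‖T g x‖ = ‖x‖) (D : Set H) (hne : D.Nonempty)
    (hcl : IsClosed D) (hcv : Convex ℝ D) (hinv : ∀ g, ∀ x ∈ D, T g x ∈ D) :
    ∃ ζ ∈ D, ∀ g, T g ζ = ζ := by
  let : InnerProductSpace ℝ H := InnerProductSpace.complexToReal
  obtain ⟨v, hv, h⟩ := exists_norm_eq_iInf_of_complete_convex hne hcl.isComplete hcv 0
  have hmin : ∀ w ∈ D, ‖v‖ ≤ ‖w‖ := fun w hw => by
    have h1 : (⨅ w : D, ‖(0 : H) - w‖) ≤ ‖(0 : H) - w‖ :=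
      ciInf_le (f := fun w : D => ‖(0 : H) - w‖)
        ⟨0, Set.forall_mem_range.2 fun _ => norm_nonneg _⟩ ⟨w, hw⟩
    rw [← h] at h1
    simpa using h1
  refine ⟨v, hv, fun g => ?_⟩
  have h1 := hmin _ (hcv (hinv g v hv) hv (a := 1 / 2) (b := 1 / 2) (by norm_num) (by norm_num)
    (by norm_num))
  rw [← smul_add, norm_smul] at h1
  have h2 := parallelogram_law_with_norm ℂ (T g v) v
  rw [hT] at h2
  have h3 : ‖(1 / 2 : ℝ)‖ = 1 / 2 := by simp
  rw [h3] at h1
  have h4 : ‖T g v - v‖ * ‖T g v - v‖ ≤ 0 := by nlinarith [norm_nonneg v]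
  have h5 : ‖T g v - v‖ = 0 := by nlinarith [norm_nonneg (T g v - v)]
  exact sub_eq_zero.1 (norm_eq_zero.1 h5)

namespace HAlg

variable {G B H : Type*} [Group G] [NonUnitalRing B] [Module ℂ B] [StarRing B]
  [NormedAddCommGroup H] [InnerProductSpace ℂ H] [CompleteSpace H] (S : HAlg G B H)

/-- Conjugation by a group element, on the Hilbert space. -/
noncomputable def TH (g : G) : H →L[ℂ] H := S.lam g * S.cj (S.lam g)

/-- Conjugation by a group element, on the algebra. -/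
def TB (g : G) (a : B) : B := S.lamB g (star (S.lamB g (star a)))

omit [CompleteSpace H] in
theorem TH_apply (g : G) (x : H) : S.TH g x = S.lam g (S.J (S.lam g (S.J x))) := rfl

omit [CompleteSpace H] in
theorem i_TB (g : G) (a : B) : S.i (S.TB g a) = S.TH g (S.i a) := by
  rw [TB, S.i_lam, ← S.J_i, S.i_lam, ← S.J_i, TH_apply]

omit [CompleteSpace H] in
theorem TH_mul (g h : G) (x : H) : S.TH (g * h) x = S.TH g (S.TH h x) := by
  simp only [TH_apply]
  rw [← S.lam_comm h g, S.J_J, ← S.lam_mul, ← S.lam_mul]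

omit [CompleteSpace H] in
theorem norm_TH (g : G) (x : H) : ‖S.TH g x‖ = ‖x‖ := by
  simp only [TH_apply, norm_lam, norm_J]

omit [CompleteSpace H] in
theorem star_TB (g : G) (a : B) : star (S.TB g a) = S.TB g (star a) := by
  apply S.inj
  rw [← S.J_i, i_TB, i_TB, ← S.J_i, TH_apply, TH_apply, S.lam_comm g g (S.J (S.i a))]

omit [CompleteSpace H] in
theorem L_TB (g : G) (a : B) (x : H) : S.L (S.TB g a) x = S.lam g (S.L a (S.lam g⁻¹ x)) := by
  rw [TB, S.L_lam]
  congr 1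
  refine ext_inner_right ℂ fun v => ?_
  rw [S.inner_L, S.L_lam, ← inv_inv g, ← inner_lam_left, ← S.inner_L, star_star, inv_inv]

omit [CompleteSpace H] in
theorem cj_lam_L (g : G) (a : B) (x : H) :
    S.cj (S.lam g) (S.L a x) = S.L a (S.cj (S.lam g) x) := by
  have h := congrArg S.cj (S.inL_lam g (star a)).eq
  rw [cj_mul, cj_mul, rho, cj_cj, star_star] at h
  exact congrArg (fun X : H →L[ℂ] H => X x) h

omit [CompleteSpace H] in
theorem TB_mul (g : G) (a b : B) : S.TB g (a * b) = S.TB g a * S.TB g b := by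
  apply S.inj
  rw [S.i_mul, L_TB, i_TB, i_TB, S.i_mul, TH, mul_apply_eq_comp, mul_apply_eq_comp, lam_inv,
    cj_lam_L]

omit [CompleteSpace H] in
theorem TB_add (g : G) (a b : B) : S.TB g (a + b) = S.TB g a + S.TB g b := by
  simp only [TB, star_add, map_add]

/-- Elements that annihilate all conjugation invariant vectors. -/
def InQ (q : B) : Prop := ∀ ζ, (∀ g, S.TH g ζ = ζ) → S.L q ζ = 0

omit [CompleteSpace H] in
theorem InQ.TB {S : HAlg G B H} {q : B} (hq : S.InQ q) (g : G) : S.InQ (S.TB g q) := by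
  intro ζ hζ
  have h : S.lam g⁻¹ ζ = S.cj (S.lam g) ζ := by
    conv_lhs => rw [← hζ g, TH, mul_apply_eq_comp, lam_inv]
  rw [L_TB, h, ← cj_lam_L, hq ζ hζ, map_zero, map_zero]

/-- Finite sums of products `p q` with `q` annihilating the invariant vectors. -/
def PP : AddSubmonoid B := AddSubmonoid.closure {x | ∃ p q, S.InQ q ∧ x = p * q}

omit [CompleteSpace H] in
theorem TB_mem_PP (g : G) {x : B} (hx : x ∈ S.PP) : S.TB g x ∈ S.PP := by
  induction hx using AddSubmonoid.closure_induction with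
  | mem x hx =>
    obtain ⟨p, q, hq, rfl⟩ := hx
    exact AddSubmonoid.subset_closure ⟨_, _, hq.TB g, S.TB_mul g p q⟩
  | zero =>
    have : S.TB g 0 = 0 := by simp [TB]
    rw [this]; exact zero_mem _
  | add x y _ _ hx hy => rw [TB_add]; exact add_mem hx hy

/-- Near orthogonality of two vectors, uniformly over the left von Neumann algebra. -/
def Small (ξ η : H) (δ : ℝ) : Prop := ∀ X, S.InL X → ‖⟪η, X ξ⟫_ℂ‖ ≤ δ * ‖X‖

theorem Small.symm {S : HAlg G B H} {ξ η : H} {δ : ℝ} (h : S.Small ξ η δ) : S.Small η ξ δ :=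
  fun X hX => by
    have h1 := h _ hX.star
    rw [norm_star] at h1
    have h2 : ⟪η, (star X) ξ⟫_ℂ = ⟪X η, ξ⟫_ℂ := ContinuousLinearMap.adjoint_inner_right X _ _
    rwa [h2, norm_inner_symm] at h1

omit [CompleteSpace H] in
theorem Small.add {S : HAlg G B H} {ξ η η' : H} {δ δ' : ℝ} (h : S.Small ξ η δ)
    (h' : S.Small ξ η' δ') : S.Small ξ (η + η') (δ + δ') := fun X hX => by
  rw [inner_add_left, add_mul]
  exact (norm_add_le _ _).trans (add_le_add (h X hX) (h' X hX))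

omit [CompleteSpace H] in
theorem Small.mono {S : HAlg G B H} {ξ η : H} {δ δ' : ℝ} (h : S.Small ξ η δ) (hδ : δ ≤ δ') :
    S.Small ξ η δ' := fun X hX => (h X hX).trans (by gcongr)

theorem exists_mix (y : B) (hy : star y = y) (s : Finset B) (hs : ∀ q ∈ s, S.InQ q) (η : ℝ)
    (hη : 0 < η) : ∃ z, ∀ q ∈ s, ‖S.i (q * S.TB z y)‖ ≤ η := by
  by_contra hcon
  push Not at hcon
  set v : H := ∑ q ∈ s, S.i (star q * q) with hv
  have key : ∀ z, η ^ 2 ≤ (⟪v, S.TH z (S.i (y * y))⟫_ℂ).re := by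
    intro z
    have e : ∀ q, (⟪S.i (star q * q), S.TH z (S.i (y * y))⟫_ℂ).re = ‖S.i (q * S.TB z y)‖ ^ 2 := by
      intro q
      have hy' : star (S.TB z y) = S.TB z y := by rw [star_TB, hy]
      rw [← i_TB, TB_mul, ← S.rho_i (S.TB z y), inner_rho, rho_i, hy', mul_assoc, S.i_mul, S.inner_L,
        ← S.i_mul]
      exact inner_self_eq_norm_sq (𝕜 := ℂ) _
    obtain ⟨q, hq, h1⟩ := hcon z
    rw [hv, sum_inner, Complex.re_sum]
    simp only [e]
    calc η ^ 2 ≤ ‖S.i (q * S.TB z y)‖ ^ 2 := by gcongr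
      _ ≤ _ := Finset.single_le_sum (f := fun q => ‖S.i (q * S.TB z y)‖ ^ 2)
        (fun _ _ => by positivity) hq
  obtain ⟨ζ, h1, h2⟩ := exists_fixed_of_convex (fun g x => S.TH g x) S.norm_TH
    {ξ | ∀ z, η ^ 2 ≤ (⟪v, S.TH z ξ⟫_ℂ).re} ⟨_, key⟩
    (by
      simp only [Set.ofPred_forall]
      exact isClosed_iInter fun z => isClosed_le continuous_const (by fun_prop))
    (by
      intro a ha b hb p q hp hq hpq z
      have e1 : S.TH z (p • a + q • b) = (p : ℂ) • S.TH z a + (q : ℂ) • S.TH z b := by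
        rw [map_add, ← map_smul, ← map_smul]
        rfl
      rw [e1, inner_add_right, inner_smul_right, inner_smul_right, Complex.add_re,
        Complex.re_ofReal_mul, Complex.re_ofReal_mul]
      have := ha z
      have := hb z
      calc η ^ 2 = p * η ^ 2 + q * η ^ 2 := by rw [← add_mul, hpq, one_mul]
        _ ≤ _ := by gcongr)
    (fun g x hx z => by rw [← TH_mul]; exact hx _)
  have h3 := h1 1
  rw [h2, hv, sum_inner, Finset.sum_eq_zero fun q hq => ?_] at h3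
  · simp only [Complex.zero_re] at h3
    nlinarith
  · rw [S.i_mul, S.inner_L, hs q hq ζ h2, inner_zero_right]

theorem exists_control {x : B} (hx : x ∈ S.PP) :
    ∃ s : Finset B, (∀ q ∈ s, S.InQ q) ∧ ∃ C : ℝ, 0 ≤ C ∧ ∀ y : B, star y = y → ∀ η : ℝ, 0 ≤ η →
      (∀ q ∈ s, ‖S.i (q * y)‖ ≤ η) → S.Small (S.i x) (S.i y) (C * η) := by
  classical
  induction hx using AddSubmonoid.closure_induction with
  | mem x hx =>
    obtain ⟨p, q, hq, rfl⟩ := hx
    refine ⟨{q}, by simpa using hq, ‖S.i p‖, norm_nonneg _, fun y hy η hη h X hX => ?_⟩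
    have h1 := h q (Finset.mem_singleton_self q)
    rw [← rho_i, ← mul_apply_eq_comp, (hX q).eq, mul_apply_eq_comp, inner_rho, rho_i]
    rw [← norm_i_star, star_mul, hy] at h1
    calc _ ≤ ‖S.i (y * star q)‖ * ‖X (S.i p)‖ := norm_inner_le_norm _ _
      _ ≤ η * (‖X‖ * ‖S.i p‖) := by gcongr; exact X.le_opNorm _
      _ = _ := by ring
  | zero => exact ⟨∅, by simp, 0, le_rfl, fun y _ η _ _ X _ => by simp⟩
  | add x y _ _ hx hy =>
    obtain ⟨s, hs, C, hC, h⟩ := hx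
    obtain ⟨s', hs', C', hC', h'⟩ := hy
    refine ⟨s ∪ s', fun q hq => (Finset.mem_union.1 hq).elim (hs q) (hs' q), C + C',
      by positivity, fun w hw η hη hq => ?_⟩
    rw [map_add, add_mul]
    exact ((h w hw η hη fun q h => hq q (Finset.mem_union_left _ h)).symm.add
      (h' w hw η hη fun q h => hq q (Finset.mem_union_right _ h)).symm).symm

theorem exists_small (O : Finset B) (hO : ∀ x ∈ O, x ∈ S.PP) (y : B) (hy : star y = y) (δ : ℝ)
    (hδ : 0 < δ) : ∃ z, ∀ x ∈ O, S.Small (S.i x) (S.i (S.TB z y)) δ := by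
  classical
  choose! s hs C hC h using fun x (hx : x ∈ O) => S.exists_control (hO x hx)
  set D := ∑ x ∈ O, C x with hD
  have hD0 : 0 ≤ D := Finset.sum_nonneg hC
  obtain ⟨z, hz⟩ := S.exists_mix y hy (O.biUnion s) (fun q hq => by
    obtain ⟨x, hx, hq⟩ := Finset.mem_biUnion.1 hq
    exact hs x hx q hq) (δ / (D + 1)) (by positivity)
  refine ⟨z, fun x hx => (h x hx _ (by rw [star_TB, hy]) _ (by positivity)
    fun q hq => hz q (Finset.mem_biUnion.2 ⟨x, hx, hq⟩)).mono ?_⟩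
  have : C x ≤ D := Finset.single_le_sum hC hx
  rw [← mul_div_assoc, div_le_iff₀ (by positivity)]
  nlinarith

end HAlg

end Pool.Agent.Work.MP_dc0135_an.Hedge
end

-- merged part: Pool.Agent.Work.MP_dc0135_an.Hedge.Tree
section
/-! The binary tree of nearly orthogonal conjugates and the commutator obstruction. -/

open scoped InnerProductSpace ComplexConjugate
open Filter Topology

namespace Pool.Agent.Work.MP_dc0135_an.Hedge

theorem offdiag_le {c : ℕ → ℂ} {s : ℂ} (h : HasSum (fun k => (((2 / 3 : ℝ) ^ k : ℝ) : ℂ) * c k) s)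
    (l : ℕ) (e : ℝ) (he : 0 ≤ e) (hc : ∀ k, k ≠ l → ‖c k‖ ≤ e) :
    ‖s - (((2 / 3 : ℝ) ^ l : ℝ) : ℂ) * c l‖ ≤ 3 * e := by
  classical
  have h1 := h.update l 0
  have h2 : HasSum (fun k : ℕ => (2 / 3 : ℝ) ^ k * e) (3 * e) := by
    have := (hasSum_geometric_of_lt_one (r := 2 / 3) (by norm_num) (by norm_num)).mul_right e
    norm_num at this
    exact this
  have h3 := h1.norm_le_of_bounded h2 fun k => by
    by_cases hk : k = l
    · subst hk
      simp only [Function.update_self, norm_zero]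
      positivity
    · rw [Function.update_of_ne hk, norm_mul, Complex.norm_real, Real.norm_of_nonneg (by positivity)]
      gcongr
      exact hc k hk
  rwa [zero_sub, neg_add_eq_sub] at h3

namespace HAlg

variable {G B H : Type*} [Group G] [NonUnitalRing B] [Module ℂ B] [StarRing B]
  [NormedAddCommGroup H] [InnerProductSpace ℂ H] [CompleteSpace H] (S : HAlg G B H)

theorem exists_tree (r : B) (hr : star r = r) (hP : r ∈ S.PP) (δ : ℝ) (hδ : 0 < δ) :
    ∃ (R : ℕ → B) (z : ℕ → Fin 2 → G), R 0 = r ∧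
      (∀ k, R (k + 1) = S.TB (z k 0) (R k) + S.TB (z k 1) (R k)) ∧ (∀ k, star (R k) = R k) ∧
      (∀ k, S.Small (S.i (S.TB (z k 0) (R k))) (S.i (S.TB (z k 1) (R k))) δ) ∧
      (∀ k l j, k < l → S.Small (S.i (S.TB (z k j) (R k))) (S.i (S.TB (z l j) (R l))) δ) ∧
      ∀ k l j, k ≤ l → S.Small (S.i (R k)) (S.i (S.TB (z l j) (R l))) δ := by
  classical
  have step : ∀ x : B × Finset B, star x.1 = x.1 ∧ x.1 ∈ x.2 ∧ (∀ o ∈ x.2, o ∈ S.PP) →
      ∃ z : Fin 2 → G, (∀ j, ∀ o ∈ x.2, S.Small (S.i o) (S.i (S.TB (z j) x.1)) δ) ∧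
        S.Small (S.i (S.TB (z 0) x.1)) (S.i (S.TB (z 1) x.1)) δ := by
    rintro ⟨R, O⟩ ⟨h1, h2, h3⟩
    obtain ⟨z0, hz0⟩ := S.exists_small O h3 R h1 δ hδ
    obtain ⟨z1, hz1⟩ := S.exists_small (insert (S.TB z0 R) O) (fun o ho => by
      rcases Finset.mem_insert.1 ho with rfl | ho
      · exact S.TB_mem_PP _ (h3 _ h2)
      · exact h3 o ho) R h1 δ hδ
    refine ⟨![z0, z1], fun j o ho => ?_, hz1 _ (Finset.mem_insert_self _ _)⟩
    fin_cases j
    · exact hz0 o ho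
    · exact hz1 o (Finset.mem_insert_of_mem ho)
  choose! f hf using step
  let nx : B × Finset B → B × Finset B := fun x =>
    (S.TB (f x 0) x.1 + S.TB (f x 1) x.1, insert (S.TB (f x 0) x.1 + S.TB (f x 1) x.1)
      (insert (S.TB (f x 0) x.1) (insert (S.TB (f x 1) x.1) x.2)))
  let st : ℕ → B × Finset B := fun n => nx^[n] (r, {r})
  have hs : ∀ n, st (n + 1) = nx (st n) := fun n => Function.iterate_succ_apply' _ _ _
  have inv : ∀ n, star (st n).1 = (st n).1 ∧ (st n).1 ∈ (st n).2 ∧ ∀ o ∈ (st n).2, o ∈ S.PP := by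
    intro n
    induction n with
    | zero => exact ⟨hr, Finset.mem_singleton_self r, fun o ho => Finset.mem_singleton.1 ho ▸ hP⟩
    | succ n ih =>
      rw [hs]
      obtain ⟨h1, h2, h3⟩ := ih
      have p0 := S.TB_mem_PP (f (st n) 0) (h3 _ h2)
      have p1 := S.TB_mem_PP (f (st n) 1) (h3 _ h2)
      refine ⟨by simp only [nx, star_add, star_TB, h1], Finset.mem_insert_self _ _, fun o ho => ?_⟩
      simp only [nx, Finset.mem_insert] at ho
      rcases ho with rfl | rfl | rfl | ho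
      exacts [add_mem p0 p1, p0, p1, h3 o ho]
  have mono : Monotone fun n => (st n).2 := monotone_nat_of_le_succ fun n => by
    simp only [hs, nx]
    exact (Finset.subset_insert _ _).trans
      ((Finset.subset_insert _ _).trans (Finset.subset_insert _ _))
  refine ⟨fun n => (st n).1, fun n => f (st n), rfl, fun k => congrArg Prod.fst (hs k),
    fun k => (inv k).1,
    fun k => (hf _ (inv k)).2, fun k l j hkl => (hf _ (inv l)).1 j _ (mono hkl ?_),
    fun k l j hkl => (hf _ (inv l)).1 j _ (mono hkl (inv k).2.1)⟩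
  simp only [hs, nx, Finset.mem_insert]
  fin_cases j <;> simp

omit [CompleteSpace H] in
theorem star_lam_mul (g : G) (a b : B) : star (S.lamB g a) * S.lamB g b = star a * b := by
  apply S.inj
  rw [S.i_mul, S.i_mul, S.i_lam]
  refine ext_inner_right ℂ fun v => ?_
  rw [S.inner_L, S.inner_L, S.L_lam, S.inner_lam]

omit [CompleteSpace H] in
theorem lamB_inv (g : G) (a : B) : S.lamB g⁻¹ (S.lamB g a) = a := by
  apply S.inj
  rw [S.i_lam, S.i_lam, lam_inv]

omit [CompleteSpace H] in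
theorem Small.sandwich {S : HAlg G B H} {ξ η : H} {δ : ℝ} (h : S.Small ξ η δ) (hδ : 0 ≤ δ)
    {Y : H →L[ℂ] H} (hY : S.InL Y) (hY2 : ‖Y‖ ≤ 2) (g g' : G) :
    ‖⟪S.lam g η, Y (S.lam g' ξ)⟫_ℂ‖ ≤ 2 * δ := by
  have h1 := h _ (((S.inL_lam g⁻¹).mul hY).mul (S.inL_lam g'))
  rw [inner_lam_left]
  refine h1.trans ?_
  rw [mul_comm 2]
  gcongr
  calc ‖S.lam g⁻¹ * Y * S.lam g'‖ ≤ ‖S.lam g⁻¹‖ * ‖Y‖ * ‖S.lam g'‖ := by
        refine (norm_mul_le _ _).trans ?_
        gcongr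
        exact norm_mul_le _ _
    _ ≤ 1 * 2 * 1 := by gcongr <;> exact S.opNorm_lam _
    _ = 2 := by norm_num

omit [CompleteSpace H] in
theorem norm_L_TB (g : G) (a : B) : ‖S.L (S.TB g a)‖ ≤ ‖S.L a‖ :=
  ContinuousLinearMap.opNorm_le_bound _ (norm_nonneg _) fun x => by
    rw [L_TB, norm_lam]
    exact ((S.L a).le_opNorm _).trans (by rw [norm_lam])

theorem norm_L_mul_le {x y : B} (hy : star y = y) {δ κ : ℝ} (hδ : 0 ≤ δ) (hκ : 0 ≤ κ)
    (h : S.Small (S.i x) (S.i y) δ) (hL : ‖S.L (x * y)‖ ≤ κ * ‖S.i (x * y)‖) :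
    ‖S.L (x * y)‖ ≤ κ ^ 2 * δ := by
  have h1 := h.symm _ (S.inL_L (x * y))
  rw [← S.i_mul, ← S.rho_i y, inner_rho, hy, rho_i, inner_self_eq_norm_sq_to_K] at h1
  have h2 : ‖S.i (x * y)‖ ^ 2 ≤ δ * (κ * ‖S.i (x * y)‖) := by
    refine le_trans (le_of_eq ?_) (h1.trans (mul_le_mul_of_nonneg_left hL hδ))
    simp
  have h3 : ‖S.i (x * y)‖ ≤ δ * κ := by
    rcases (norm_nonneg (S.i (x * y))).eq_or_lt with h0 | h0
    · rw [← h0]; positivity
    · nlinarith
  calc _ ≤ κ * ‖S.i (x * y)‖ := hL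
    _ ≤ κ * (δ * κ) := by gcongr
    _ = _ := by ring

end HAlg

end Pool.Agent.Work.MP_dc0135_an.Hedge
end

-- merged part: Pool.Agent.Work.MP_dc0135_an.Hedge.Obstr
section
/-! The commutator obstruction to approximate diagonals. -/

open scoped InnerProductSpace ComplexConjugate
open Filter Topology

namespace Pool.Agent.Work.MP_dc0135_an.Hedge

namespace HAlg

variable {G B H : Type*} [Group G] [NonUnitalRing B] [Module ℂ B] [StarRing B]
  [NormedAddCommGroup H] [InnerProductSpace ℂ H] [CompleteSpace H] (S : HAlg G B H)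

theorem growth (R : ℕ → B) (z : ℕ → Fin 2 → G) (δ κ : ℝ) (hδ : 0 ≤ δ) (hκ : 0 ≤ κ)
    (h1 : ∀ k, R (k + 1) = S.TB (z k 0) (R k) + S.TB (z k 1) (R k)) (h2 : ∀ k, star (R k) = R k)
    (h3 : ∀ k, S.Small (S.i (S.TB (z k 0) (R k))) (S.i (S.TB (z k 1) (R k))) δ)
    (h4 : ∀ k, ‖S.L (S.TB (z k 0) (R k) * S.TB (z k 1) (R k))‖ ≤
      κ * ‖S.i (S.TB (z k 0) (R k) * S.TB (z k 1) (R k))‖) :
    ∃ D : ℝ, 0 < D ∧ (∀ k, ‖S.i (R k)‖ ≤ D * (17 / 12) ^ k) ∧
      ∀ k, ‖S.L (R k)‖ ≤ D * (5 / 4) ^ k := by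
  set D := ‖S.i (R 0)‖ + ‖S.L (R 0)‖ + 2 * δ + 8 * (κ ^ 2 * δ) + 1 with hD
  have e0 : 0 ≤ κ ^ 2 * δ := by positivity
  have n1 := norm_nonneg (S.i (R 0))
  have n2 := norm_nonneg (S.L (R 0))
  have hD0 : 0 < D := by positivity
  refine ⟨D, hD0, fun k => ?_, fun k => ?_⟩
  · have : ‖S.i (R k)‖ ^ 2 + 2 * δ ≤ (D * (17 / 12) ^ k) ^ 2 := by
      induction k with
      | zero => rw [pow_zero, mul_one]; nlinarith
      | succ k ih =>
        have a1 := h3 k 1 S.inL_one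
        have a2 : ‖(1 : H →L[ℂ] H)‖ ≤ 1 := ContinuousLinearMap.norm_id_le
        have a3 : RCLike.re ⟪S.i (S.TB (z k 0) (R k)), S.i (S.TB (z k 1) (R k))⟫_ℂ ≤ δ := by
          refine (RCLike.re_le_norm _).trans ?_
          rw [norm_inner_symm]
          exact a1.trans (mul_le_of_le_one_right hδ a2)
        rw [h1, map_add, @norm_add_sq ℂ]
        have a4 : ∀ j, ‖S.i (S.TB (z k j) (R k))‖ = ‖S.i (R k)‖ := fun j => by rw [i_TB, norm_TH]
        rw [a4, a4, pow_succ (17 / 12 : ℝ) k, ← mul_assoc D, mul_pow (D * (17 / 12) ^ k)]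
        nlinarith [sq_nonneg (D * (17 / 12) ^ k)]
    exact (sq_le_sq₀ (norm_nonneg _) (by positivity)).1 (by linarith)
  · induction k with
    | zero => rw [pow_zero, mul_one]; linarith
    | succ k ih =>
      have hs : ∀ j, star (S.TB (z k j) (R k)) = S.TB (z k j) (R k) := fun j => by
        rw [star_TB, h2]
      have a1 := S.norm_L_mul_le (hs 1) hδ hκ (h3 k) (h4 k)
      rw [L_mul] at a1
      have a2 := norm_add_sq_le _ _ (by rw [← L_star, hs]) (by rw [← L_star, hs]) _ _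
        (by positivity) ((S.norm_L_TB _ _).trans ih) ((S.norm_L_TB _ _).trans ih) a1
      rw [h1, map_add]
      refine (sq_le_sq₀ (norm_nonneg _) (by positivity)).1 (a2.trans ?_)
      have a3 : D ≤ D * (5 / 4) ^ k := le_mul_of_one_le_right hD0.le (one_le_pow₀ (by norm_num))
      have a4 : 8 * (κ ^ 2 * δ) ≤ D ^ 2 := by nlinarith
      have a5 : D ^ 2 ≤ (D * (5 / 4) ^ k) ^ 2 := by gcongr
      rw [pow_succ (5 / 4 : ℝ) k, ← mul_assoc D, mul_pow (D * (5 / 4) ^ k)]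
      nlinarith

theorem level_estimate (R : ℕ → B) (z : ℕ → Fin 2 → G) (δ : ℝ) (hδ : 0 ≤ δ)
    (h1 : ∀ k, R (k + 1) = S.TB (z k 0) (R k) + S.TB (z k 1) (R k)) (h2 : ∀ k, star (R k) = R k)
    (h3 : ∀ k, S.Small (S.i (S.TB (z k 0) (R k))) (S.i (S.TB (z k 1) (R k))) δ)
    (h4 : ∀ k l j, k < l → S.Small (S.i (S.TB (z k j) (R k))) (S.i (S.TB (z l j) (R l))) δ)
    (h5 : ∀ k l j, k ≤ l → S.Small (S.i (R k)) (S.i (S.TB (z l j) (R l))) δ)
    (α : Fin 2 → B)
    (hα : ∀ j, HasSum (fun k => (((2 / 3 : ℝ) ^ k : ℝ) : ℂ) •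
      S.i (star (S.lamB (z k j) (R k)))) (S.i (α j)))
    (Y : H →L[ℂ] H) (ψ : H →L[ℂ] ℂ) (hY : S.InL Y) (hY2 : ‖Y‖ ≤ 2)
    (hP : ∀ s t, ψ (S.i (s * t)) = ⟪S.i (star t), Y (S.i s)⟫_ℂ) (l : ℕ) :
    ‖∑ j, ψ (S.i (α j * S.lamB (z l j) (R l) - S.lamB (z l j) (R l) * α j)) -
      (((2 / 3 : ℝ) ^ l : ℝ) : ℂ) *
        (2 * ψ (S.i (R l * R l)) - ψ (S.i (R (l + 1) * R (l + 1))))‖ ≤ 40 * δ := by
  set t : ℂ := (((2 / 3 : ℝ) ^ l : ℝ) : ℂ) with ht
  have hx : ∀ k j, star (S.lamB (z k j) (R k)) = S.lamB (z k j)⁻¹ (S.TB (z k j) (R k)) :=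
    fun k j => by rw [TB, lamB_inv, h2]
  have hs : ∀ k j, star (S.TB (z k j) (R k)) = S.TB (z k j) (R k) := fun k j => by
    rw [star_TB, h2]
  have hRR : ∀ k m, k < m → S.Small (S.i (R k)) (S.i (R m)) (δ + δ) := fun k m hkm => by
    obtain ⟨m, rfl⟩ := Nat.exists_eq_succ_of_ne_zero (Nat.ne_zero_of_lt hkm)
    rw [h1, map_add]
    exact (h5 k m 0 (Nat.lt_succ_iff.1 hkm)).add (h5 k m 1 (Nat.lt_succ_iff.1 hkm))
  have d1 : ∀ j, ‖ψ (S.i (α j * S.lamB (z l j) (R l))) - t * ψ (S.i (R l * R l))‖ ≤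
      3 * (2 * δ) := fun j => by
    have a1 := (((innerSL ℂ (S.i (star (S.lamB (z l j) (R l))))).comp Y).hasSum (hα j))
    simp only [map_smul, smul_eq_mul, ContinuousLinearMap.comp_apply, innerSL_apply_apply] at a1
    have a2 := offdiag_le a1 l (2 * δ) (by positivity) fun k hk => by
      rw [hx, hx, S.i_lam, S.i_lam]
      rcases lt_or_gt_of_ne hk with hk | hk
      · exact (h4 k l j hk).sandwich hδ hY hY2 _ _
      · exact (h4 l k j hk).symm.sandwich hδ hY hY2 _ _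
    rwa [← hP, ← hP, star_lam_mul, h2] at a2
  have d2 : ∀ j, ‖ψ (S.i (S.lamB (z l j) (R l) * α j)) -
      t * ψ (S.i (S.TB (z l j) (R l) * S.TB (z l j) (R l)))‖ ≤ 3 * (2 * (δ + δ)) := fun j => by
    have a1 := (((innerSL ℂ (S.J (Y (S.i (S.lamB (z l j) (R l))))))).hasSum (hα j))
    have a0 : ∀ a, ⟪S.J (Y (S.i (S.lamB (z l j) (R l)))), S.i a⟫_ℂ =
        ⟪S.i (star a), Y (S.i (S.lamB (z l j) (R l)))⟫_ℂ := fun a => by
      rw [← S.inner_J, S.J_J, S.J_i]
    simp only [map_smul, smul_eq_mul, innerSL_apply_apply, a0] at a1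
    have a2 := offdiag_le a1 l (2 * (δ + δ)) (by positivity) fun k hk => by
      rw [star_star, S.i_lam, S.i_lam]
      rcases lt_or_gt_of_ne hk with hk | hk
      · exact (hRR k l hk).symm.sandwich (by positivity) hY hY2 _ _
      · exact (hRR l k hk).sandwich (by positivity) hY hY2 _ _
    have a3 : S.lamB (z l j) (R l) * star (S.lamB (z l j) (R l)) =
        S.TB (z l j) (R l) * S.TB (z l j) (R l) := by
      rw [← star_star (S.lamB (z l j) (R l)), hx, star_star, star_lam_mul, hs]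
    rwa [← hP, ← hP, a3] at a2
  have d3 : ‖ψ (S.i (S.TB (z l 0) (R l) * S.TB (z l 1) (R l)))‖ ≤ δ * 2 := by
    rw [hP, hs]
    exact (h3 l Y hY).trans (by gcongr)
  have d4 : ‖ψ (S.i (S.TB (z l 1) (R l) * S.TB (z l 0) (R l)))‖ ≤ δ * 2 := by
    rw [hP, hs]
    exact ((h3 l).symm Y hY).trans (by gcongr)
  have ht1 : ‖t‖ ≤ 1 := by
    rw [ht, Complex.norm_real, Real.norm_of_nonneg (by positivity)]
    exact pow_le_one₀ (by norm_num) (by norm_num)
  rw [Fin.sum_univ_two, h1]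
  simp only [map_sub, add_mul, mul_add, map_add]
  have e : ∀ a0 a1 b0 b1 c p00 p01 p10 p11 : ℂ,
      a0 - b0 + (a1 - b1) - t * (2 * c - (p00 + p10 + (p01 + p11))) =
        (a0 - t * c) + (a1 - t * c) - (b0 - t * p00) - (b1 - t * p11) + t * p01 + t * p10 := by
    intros; ring
  rw [e]
  have f3 : ‖t * ψ (S.i (S.TB (z l 0) (R l) * S.TB (z l 1) (R l)))‖ ≤ 1 * (δ * 2) := by
    rw [norm_mul]; gcongr
  have f4 : ‖t * ψ (S.i (S.TB (z l 1) (R l) * S.TB (z l 0) (R l)))‖ ≤ 1 * (δ * 2) := by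
    rw [norm_mul]; gcongr
  refine (norm_add_le_of_le (norm_add_le_of_le (norm_sub_le_of_le (norm_sub_le_of_le
    (norm_add_le_of_le (d1 0) (d1 1)) (d2 0)) (d2 1)) f3) f4).trans (le_of_eq (by ring))

theorem obstruction [IsScalarTower ℂ B B] [SMulCommClass ℂ B B] [StarModule ℂ B]
    {A : Type*} [NonUnitalNormedRing A] [NormedSpace ℂ A] [IsScalarTower ℂ A A]
    [SMulCommClass ℂ A A] [CompleteSpace A] (ι : A →ₗ[ℂ] B) (hι : ∀ a b, ι (a * b) = ι a * ι b)
    (c : ℝ) (hc0 : 0 ≤ c) (hc : ∀ a, ‖S.i (ι a)‖ ≤ c * ‖a‖) (V : AddSubmonoid B)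
    (hVT : ∀ g, ∀ x ∈ V, S.TB g x ∈ V) (κ : ℝ) (hκ : 0 ≤ κ)
    (hVL : ∀ x ∈ V, ∀ y ∈ V, ‖S.L (x * y)‖ ≤ κ * ‖S.i (x * y)‖)
    (hVA : ∀ x ∈ V, ∀ g, ∃ a, ι a = S.lamB g x ∧ ‖a‖ ≤ κ * ‖S.i x‖)
    (q : B) (hq : S.InQ q) (hr : star q * q ∈ V) (hne : S.i (star q * q) ≠ 0) :
    ¬ IsPseudoAmenable A := by
  intro hA
  set r := star q * q with hr'
  have hr0 : 0 < ‖S.i r‖ := norm_pos_iff.2 hne
  have hrs : star r = r := by rw [hr', star_mul, star_star]
  set δ := ‖S.i r‖ ^ 2 / 320 with hδ'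
  have hδ : 0 < δ := by positivity
  obtain ⟨R, z, h0, h1, h2, h3, h4, h5⟩ := S.exists_tree r hrs
    (AddSubmonoid.subset_closure ⟨_, _, hq, rfl⟩) δ hδ
  have hV : ∀ k, R k ∈ V := fun k => by
    induction k with
    | zero => rwa [h0]
    | succ k ih => rw [h1]; exact add_mem (hVT _ _ ih) (hVT _ _ ih)
  obtain ⟨D, hD, g1, g2⟩ := S.growth R z δ κ hδ.le hκ h1 h2 h3
    fun k => hVL _ (hVT _ _ (hV k)) _ (hVT _ _ (hV k))
  choose a ha ha' using fun k j => hVA _ (hVT (z k j) _ (hV k)) (z k j)⁻¹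
  choose a' hb hb' using fun k j => hVA _ (hV k) (z k j)
  obtain ⟨b, hb1, -⟩ := hVA r hr 1
  have hb2 : ι b = r := by
    rw [hb1]; apply S.inj; rw [S.i_lam, S.lam_one]
  let f : A →L[ℂ] H := (S.i.comp ι).mkContinuous c hc
  have hf : ∀ x, f x = S.i (ι x) := fun _ => rfl
  have sm : ∀ u : ℕ → A, (∀ k, ‖u k‖ ≤ κ * ‖S.i (R k)‖) →
      Summable fun k => (((2 / 3 : ℝ) ^ k : ℝ) : ℂ) • u k := fun u hu => by
    refine Summable.of_norm_bounded (g := fun k => κ * D * (17 / 18) ^ k)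
      ((summable_geometric_of_lt_one (by norm_num) (by norm_num)).mul_left _) fun k => ?_
    rw [norm_smul, Complex.norm_real, Real.norm_of_nonneg (by positivity)]
    calc (2 / 3 : ℝ) ^ k * ‖u k‖ ≤ (2 / 3 : ℝ) ^ k * (κ * (D * (17 / 12) ^ k)) := by
          gcongr
          exact (hu k).trans (by gcongr; exact g1 k)
      _ = κ * D * ((2 / 3) * (17 / 12)) ^ k := by rw [mul_pow]; ring
      _ = _ := by norm_num
  have s1 := fun j => (sm (fun k => a k j) fun k => by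
    have := ha' k j
    rwa [i_TB, norm_TH] at this).hasSum
  have s2 := fun j => (sm (fun k => a' k j) fun k => hb' k j).hasSum
  set α := fun j => ∑' k, (((2 / 3 : ℝ) ^ k : ℝ) : ℂ) • a k j with hα
  set α' := fun j => ∑' k, (((2 / 3 : ℝ) ^ k : ℝ) : ℂ) • a' k j with hα'
  have hx : ∀ k j, star (S.lamB (z k j) (R k)) = S.lamB (z k j)⁻¹ (S.TB (z k j) (R k)) :=
    fun k j => by rw [TB, lamB_inv, h2]
  have t1 : ∀ j, HasSum (fun k => (((2 / 3 : ℝ) ^ k : ℝ) : ℂ) •
      S.i (star (S.lamB (z k j) (R k)))) (S.i (ι (α j))) := fun j => by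
    have := f.hasSum (s1 j)
    simpa only [map_smul, hf, ha, hx] using this
  have t2 : ∀ j, ι (α' j) = star (ι (α j)) := fun j => by
    apply S.inj
    have u1 := f.hasSum (s2 j)
    have u2 := S.J.hasSum (t1 j)
    simp only [map_smul, hf, hb] at u1
    simp only [map_smulₛₗ, Complex.conj_ofReal, S.J_i, star_star] at u2
    exact u1.unique u2
  set ε := ‖S.i r‖ ^ 2 / (4 * (32 * D + ‖S.i r‖)) with hε'
  have hε : 0 < ε := by positivity
  obtain ⟨Y, ζ, y1, y2, y3, y4, y5⟩ := S.exists_functional ι hι c hc0 hc hA α α' t2 b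
    (by rw [hb2, hrs]) ε hε
  rw [hb2] at y5
  let ψ : H →L[ℂ] ℂ := innerSL ℂ (S.J ζ)
  have hψ : ∀ w, ψ (S.i w) = ⟪S.i (star w), ζ⟫_ℂ := fun w => by
    rw [← S.J_i]
    conv_rhs => rw [← S.J_J ζ, S.inner_J]
    rfl
  have hP : ∀ s t, ψ (S.i (s * t)) = ⟪S.i (star t), Y (S.i s)⟫_ℂ := fun s t => by rw [hψ, y3]
  have lev := S.level_estimate R z δ hδ.le h1 h2 h3 h4 h5 (fun j => ι (α j)) t1 Y ψ y1 y2 hP
  set cc := fun k => ψ (S.i (R k * R k)) with hcc
  have main : ∀ N : ℕ, 2 * ‖cc 0‖ ≤ 2 * (‖ζ‖ * D ^ 2 * (85 / 96) ^ N) + 160 * δ + ε * (32 * D) := by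
    intro N
    set T : Fin 2 → B := fun j => ∑ l ∈ Finset.range N,
      (((3 / 4 : ℝ) ^ l : ℝ) : ℂ) • S.lamB (z l j) (R l) with hT
    have geo : ∀ ρ : ℝ, 0 ≤ ρ → ρ < 1 → ∑ l ∈ Finset.range N, ρ ^ l ≤ (1 - ρ)⁻¹ := fun ρ p1 p2 =>
      sum_le_hasSum _ (fun _ _ => by positivity) (hasSum_geometric_of_lt_one p1 p2)
    have nT : ∀ j, ‖S.L (T j)‖ ≤ 16 * D := fun j => by
      rw [hT, map_sum]
      refine (norm_sum_le_of_le _ (n := fun l => D * (15 / 16) ^ l) fun l _ => ?_).trans ?_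
      · rw [map_smul, norm_smul, Complex.norm_real, Real.norm_of_nonneg (by positivity)]
        have : ‖S.L (S.lamB (z l j) (R l))‖ ≤ D * (5 / 4) ^ l :=
          ContinuousLinearMap.opNorm_le_bound _ (by positivity) fun x => by
            rw [S.L_lam, norm_lam]
            exact ((S.L _).le_opNorm _).trans (by gcongr; exact g2 l)
        calc _ ≤ (3 / 4 : ℝ) ^ l * (D * (5 / 4) ^ l) := by gcongr
          _ = D * ((3 / 4) * (5 / 4)) ^ l := by rw [mul_pow]; ring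
          _ = _ := by norm_num
      · rw [← Finset.mul_sum, mul_comm]
        gcongr
        exact (geo _ (by norm_num) (by norm_num)).trans (by norm_num)
    have m1 : ‖∑ j, ψ (S.i (ι (α j) * T j - T j * ι (α j)))‖ ≤ ε * (32 * D) := by
      rw [Fin.sum_univ_two, hψ, hψ]
      refine (norm_add_le_of_le (y4 0 _) (y4 1 _)).trans ?_
      nlinarith [mul_le_mul_of_nonneg_left (nT 0) hε.le, mul_le_mul_of_nonneg_left (nT 1) hε.le]
    have m2 : ∑ j, ψ (S.i (ι (α j) * T j - T j * ι (α j))) = ∑ l ∈ Finset.range N,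
        (((3 / 4 : ℝ) ^ l : ℝ) : ℂ) * ∑ j, ψ (S.i (ι (α j) * S.lamB (z l j) (R l) -
          S.lamB (z l j) (R l) * ι (α j))) := by
      simp only [hT, Finset.mul_sum, Finset.sum_mul, mul_smul_comm, smul_mul_assoc,
        ← Finset.sum_sub_distrib, ← smul_sub, map_sum, map_smul, smul_eq_mul]
      exact Finset.sum_comm
    have m3 : 2 * cc 0 - 2 * ((1 / 2 : ℂ) ^ N * cc N) = ∑ l ∈ Finset.range N,
        (((3 / 4 : ℝ) ^ l : ℝ) : ℂ) * ((((2 / 3 : ℝ) ^ l : ℝ) : ℂ) * (2 * cc l - cc (l + 1))) := by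
      have := Finset.sum_range_sub' (fun l => 2 * ((1 / 2 : ℂ) ^ l * cc l)) N
      simp only [pow_zero, one_mul] at this
      rw [← this]
      refine Finset.sum_congr rfl fun l _ => ?_
      rw [← mul_assoc (((3 / 4 : ℝ) ^ l : ℝ) : ℂ), ← Complex.ofReal_mul, ← mul_pow]
      push_cast
      norm_num
      ring
    have m4 : ‖∑ j, ψ (S.i (ι (α j) * T j - T j * ι (α j))) -
        (2 * cc 0 - 2 * ((1 / 2 : ℂ) ^ N * cc N))‖ ≤ 160 * δ := by
      rw [m2, m3, ← Finset.sum_sub_distrib]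
      refine (norm_sum_le_of_le _ (n := fun l => (3 / 4) ^ l * (40 * δ)) fun l _ => ?_).trans ?_
      · rw [← mul_sub, norm_mul, Complex.norm_real, Real.norm_of_nonneg (by positivity)]
        gcongr
        exact lev l
      · rw [← Finset.sum_mul]
        have := geo (3 / 4) (by norm_num) (by norm_num)
        norm_num at this
        nlinarith
    have m5 : ‖(1 / 2 : ℂ) ^ N * cc N‖ ≤ ‖ζ‖ * D ^ 2 * (85 / 96) ^ N := by
      have : ‖cc N‖ ≤ (D * (5 / 4) ^ N * (D * (17 / 12) ^ N)) * ‖ζ‖ := by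
        simp only [hcc, hψ]
        refine (norm_inner_le_norm _ _).trans ?_
        gcongr
        rw [norm_i_star, S.i_mul]
        exact ((S.L _).le_opNorm _).trans (mul_le_mul (g2 N) (g1 N) (norm_nonneg _) (by positivity))
      rw [norm_mul, norm_pow]
      have h2 : ‖(1 / 2 : ℂ)‖ = 1 / 2 := by simp
      rw [h2]
      calc _ ≤ (1 / 2 : ℝ) ^ N * ((D * (5 / 4) ^ N * (D * (17 / 12) ^ N)) * ‖ζ‖) := by gcongr
        _ = ‖ζ‖ * D ^ 2 * ((1 / 2) * (5 / 4) * (17 / 12)) ^ N := by rw [mul_pow, mul_pow]; ring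
        _ = _ := by norm_num
    have m6 : 2 * cc 0 = 2 * ((1 / 2 : ℂ) ^ N * cc N) -
        (∑ j, ψ (S.i (ι (α j) * T j - T j * ι (α j))) -
          (2 * cc 0 - 2 * ((1 / 2 : ℂ) ^ N * cc N))) +
        ∑ j, ψ (S.i (ι (α j) * T j - T j * ι (α j))) := by ring
    have m7 : ‖2 * cc 0‖ = 2 * ‖cc 0‖ := by simp
    rw [← m7, m6]
    refine norm_add_le_of_le (norm_sub_le_of_le ?_ m4) m1
    rw [norm_mul]
    simpa using m5
  have lim : 2 * ‖cc 0‖ ≤ 160 * δ + ε * (32 * D) := by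
    have h6 := ((((tendsto_pow_atTop_nhds_zero_of_lt_one (r := (85 / 96 : ℝ)) (by norm_num)
      (by norm_num)).const_mul (‖ζ‖ * D ^ 2)).const_mul 2).add_const (160 * δ)).add_const
        (ε * (32 * D))
    simpa using ge_of_tendsto' h6 main
  have c0 : cc 0 = ⟪S.i r, Y (S.i r)⟫_ℂ := by simp only [hcc, h0, hP, hrs]
  rw [← c0] at y5
  have e1 : ε * (32 * D + ‖S.i r‖) = ‖S.i r‖ ^ 2 / 4 := by
    rw [hε']; field_simp
  nlinarith [sq_pos_of_pos hr0]

end HAlg

end Pool.Agent.Work.MP_dc0135_an.Hedge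
end

-- merged part: Pool.Agent.Work.MP_dc0135_an.Hedge.L12
section
/-! The Segal algebra `L¹ ∩ L²` and, for unimodular groups, its Hilbert algebra structure. -/

open MeasureTheory Filter Topology
open scoped ENNReal InnerProductSpace ComplexConjugate


namespace Pool.Agent.Work.MP_dc0135_an.Hedge

variable {G : Type} [Group G] [TopologicalSpace G] [IsTopologicalGroup G]
  [LocallyCompactSpace G] [T2Space G] [SecondCountableTopology G] [MeasurableSpace G]
  [BorelSpace G] (μ : Measure G) [μ.IsHaarMeasure]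

/-- Left translation on `L²(G)`. -/
noncomputable def L2 (x : G) : Lp ℂ 2 μ →L[ℂ] Lp ℂ 2 μ :=
  (Lp.compMeasurePreservingₗᵢ ℂ (fun y => x⁻¹ * y)
    (measurePreserving_mul_left μ x⁻¹)).toContinuousLinearMap

omit [LocallyCompactSpace G] [T2Space G] [SecondCountableTopology G] in
theorem L2_ae (x : G) (f : Lp ℂ 2 μ) : L2 μ x f =ᵐ[μ] fun y => f (x⁻¹ * y) :=
  Lp.coeFn_compMeasurePreserving f (measurePreserving_mul_left μ x⁻¹)

omit [LocallyCompactSpace G] [T2Space G] [SecondCountableTopology G] in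
theorem L2_mul (x y : G) (f : Lp ℂ 2 μ) : L2 μ (x * y) f = L2 μ x (L2 μ y f) := by
  apply Lp.ext
  have h1 := (measurePreserving_mul_left μ x⁻¹).quasiMeasurePreserving.ae_eq_comp (L2_ae μ y f)
  filter_upwards [L2_ae μ (x * y) f, L2_ae μ x (L2 μ y f), h1] with z h2 h3 h4
  rw [h2, h3]
  simp only [Function.comp_apply] at h4
  rw [h4, mul_inv_rev, mul_assoc]

theorem continuous_L2 (f : Lp ℂ 2 μ) : Continuous fun x => L2 μ x f := by
  let g : G → C(G, G) := fun x => ⟨fun y => x⁻¹ * y, by fun_prop⟩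
  have hg : Continuous g := by
    apply ContinuousMap.continuous_of_continuous_uncurry
    simp only [g]
    exact (continuous_fst.inv.mul continuous_snd)
  exact Continuous.compMeasurePreservingLp (μ := μ) (ν := μ) (continuous_const (y := f)) hg
    (fun x => measurePreserving_mul_left μ x⁻¹) ENNReal.ofNat_ne_top

/-- The left regular representation on `L²(G)`. -/
noncomputable def rep2 : IsoRep G (Lp ℂ 2 μ) where
  ρ := L2 μ
  map_mul := L2_mul μ
  norm_eq x f := Lp.norm_compMeasurePreserving f (measurePreserving_mul_left μ x⁻¹)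
  cont := continuous_L2 μ

section Space

omit [Group G] [IsTopologicalGroup G] [LocallyCompactSpace G] [T2Space G]
  [SecondCountableTopology G] [BorelSpace G] [μ.IsHaarMeasure] [TopologicalSpace G]

/-- The space `L¹ ∩ L²`, as the diagonal of `L¹ × L²`. -/
def B12 : Submodule ℂ (Lp ℂ 1 μ × Lp ℂ 2 μ) where
  carrier := {x | ⇑x.1 =ᵐ[μ] ⇑x.2}
  add_mem' {x y} hx hy := by
    filter_upwards [hx, hy, Lp.coeFn_add x.1 y.1, Lp.coeFn_add x.2 y.2] with t h1 h2 h3 h4
    simp only [Prod.fst_add, Prod.snd_add, h3, h4, Pi.add_apply, h1, h2]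
  zero_mem' := (Lp.coeFn_zero _ _ _).trans (Lp.coeFn_zero _ _ _).symm
  smul_mem' c x hx := by
    filter_upwards [hx, Lp.coeFn_smul c x.1, Lp.coeFn_smul c x.2] with t h1 h3 h4
    simp only [Prod.smul_fst, Prod.smul_snd, h3, h4, Pi.smul_apply, h1]

theorem isClosed_B12 : IsClosed (B12 μ : Set (Lp ℂ 1 μ × Lp ℂ 2 μ)) := by
  refine IsSeqClosed.isClosed fun u x hu hx => ?_
  have h1 := tendstoInMeasure_of_tendsto_Lp ((continuous_fst.tendsto x).comp hx)
  have h2 := tendstoInMeasure_of_tendsto_Lp ((continuous_snd.tendsto x).comp hx)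
  exact tendstoInMeasure_ae_unique (h1.congr_left hu) h2

instance completeSpace_B12 : CompleteSpace (B12 μ) := (isClosed_B12 μ).completeSpace_coe

theorem dense_of_indicator (p : ℝ≥0∞) [Fact (1 ≤ p)] (hp : p ≠ ∞) (W : Submodule ℂ (Lp ℂ p μ))
    (h : ∀ (c : ℂ) (s : Set G) (hs : MeasurableSet s) (hμs : μ s ≠ ∞),
      indicatorConstLp p hs hμs c ∈ W) : Dense (W : Set (Lp ℂ p μ)) := by
  refine Lp.induction hp (fun f => f ∈ closure (W : Set (Lp ℂ p μ)))
    (fun c s hs hμs => subset_closure (h c s hs hμs.ne)) (fun f g hf hg _ h1 h2 => ?_)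
    isClosed_closure
  exact W.topologicalClosure.add_mem h1 h2

/-- An indicator function as an element of `L¹ ∩ L²`. -/
noncomputable def ind (c : ℂ) {s : Set G} (hs : MeasurableSet s) (hμs : μ s ≠ ∞) : B12 μ :=
  ⟨(indicatorConstLp 1 hs hμs c, indicatorConstLp 2 hs hμs c),
    (indicatorConstLp_coeFn (hs := hs) (hμs := hμs)).trans
      (indicatorConstLp_coeFn (hs := hs) (hμs := hμs)).symm⟩

/-- The embedding in `L¹`. -/
noncomputable def j1 : B12 μ →L[ℂ] Lp ℂ 1 μ :=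
  (ContinuousLinearMap.fst ℂ _ _).comp (B12 μ).subtypeL

/-- The embedding in `L²`. -/
noncomputable def j2 : B12 μ →L[ℂ] Lp ℂ 2 μ :=
  (ContinuousLinearMap.snd ℂ _ _).comp (B12 μ).subtypeL

theorem j12 (a : B12 μ) : ⇑(j1 μ a) =ᵐ[μ] ⇑(j2 μ a) := a.2

theorem j1_inj : Function.Injective (j1 μ) := fun a b h =>
  Subtype.ext (Prod.ext h (Lp.ext ((j12 μ a).symm.trans (h ▸ j12 μ b))))

theorem j2_inj : Function.Injective (j2 μ) := fun a b h =>
  j1_inj μ (Lp.ext ((j12 μ a).trans (h ▸ (j12 μ b).symm)))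

theorem norm_le_of_supp {D : Set G} (hD : MeasurableSet D) (hD' : μ D ≠ ∞) :
    ∃ κ : ℝ, 0 ≤ κ ∧ ∀ a : B12 μ, (∀ᵐ t ∂μ, t ∉ D → j1 μ a t = 0) → ‖j1 μ a‖ ≤ κ * ‖j2 μ a‖ := by
  refine ⟨(μ D ^ (1 / 2 : ℝ)).toReal, ENNReal.toReal_nonneg, fun a ha => ?_⟩
  have h1 : ⇑(j1 μ a) =ᵐ[μ] D.indicator (j2 μ a) := by
    filter_upwards [ha, j12 μ a] with t h1 h2
    by_cases ht : t ∈ D
    · rw [Set.indicator_of_mem ht, h2]
    · rw [Set.indicator_of_notMem ht, h1 ht]
  have h2 := eLpNorm_le_eLpNorm_mul_rpow_measure_univ (μ := μ.restrict D) (p := 1) (q := 2)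
    (by norm_num) (Lp.aestronglyMeasurable (j2 μ a)).restrict
  rw [Measure.restrict_apply_univ] at h2
  rw [Lp.norm_def, Lp.norm_def, eLpNorm_congr_ae h1, eLpNorm_indicator_eq_eLpNorm_restrict hD,
    ← ENNReal.toReal_mul, mul_comm]
  refine ENNReal.toReal_mono (ENNReal.mul_ne_top (Lp.eLpNorm_ne_top _)
    (ENNReal.rpow_ne_top_of_nonneg (by norm_num) hD')) (h2.trans ?_)
  norm_num
  gcongr
  exact Measure.restrict_le_self

end Space

/-- Left translation on `L¹ ∩ L²`. -/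
noncomputable def repB : IsoRep G (B12 μ) where
  ρ x := (((LL μ x).prodMap (L2 μ x)).comp (B12 μ).subtypeL).codRestrict (B12 μ) fun a => by
    have h1 := (measurePreserving_mul_left μ x⁻¹).quasiMeasurePreserving.ae_eq_comp (j12 μ a)
    exact (LL_ae μ x _).trans (h1.trans (L2_ae μ x _).symm)
  map_mul x y a := Subtype.ext (Prod.ext (LL_mul μ x y _) (L2_mul μ x y _))
  norm_eq x a := by
    change max ‖LL μ x a.1.1‖ ‖L2 μ x a.1.2‖ = max ‖a.1.1‖ ‖a.1.2‖
    rw [norm_LL]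
    exact congrArg _ ((rep2 μ).norm_eq x _)
  cont a := ((continuous_LL μ a.1.1).prodMk (continuous_L2 μ a.1.2)).subtype_mk _

/-- `L¹ ∩ L²` is a Segal algebra. -/
noncomputable def segalB : SegalData μ (B12 μ) where
  j := j1 μ
  R := repB μ
  equiv _ _ := rfl
  norm_le a := norm_fst_le a.1
  inj := j1_inj μ
  dense := dense_of_indicator μ 1 ENNReal.one_ne_top (LinearMap.range (j1 μ).toLinearMap)
    fun c _ hs hμs => ⟨ind μ c hs hμs, rfl⟩

theorem j1_mul_ae (a b : B12 μ) :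
    j1 μ ((segalB μ).mulA a b) =ᵐ[μ] groupConv μ (j1 μ a) (j1 μ b) :=
  (segalB μ).j_act_ae _ _

theorem j2_mul (a b : B12 μ) :
    j2 μ ((segalB μ).mulA a b) = act μ (rep2 μ) (j1 μ a) (j2 μ b) := by
  rw [SegalData.mulA, clm_act, act_apply]
  rfl

section Star

variable [μ.IsInvInvariant]

/-- The involution `f ↦ conj (f x⁻¹)`. -/
noncomputable def Jf {p : ℝ≥0∞} (f : Lp ℂ p μ) : Lp ℂ p μ :=
  star (Lp.compMeasurePreserving Inv.inv (Measure.measurePreserving_inv μ) f)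

omit [LocallyCompactSpace G] [T2Space G] [SecondCountableTopology G] [μ.IsHaarMeasure]

theorem inv_ae_eq {f g : G → ℂ} (h : f =ᵐ[μ] g) : (fun x => f x⁻¹) =ᵐ[μ] fun x => g x⁻¹ :=
  (Measure.measurePreserving_inv μ).quasiMeasurePreserving.ae_eq_comp h

theorem Jf_ae {p : ℝ≥0∞} (f : Lp ℂ p μ) : Jf μ f =ᵐ[μ] fun x => conj (f x⁻¹) := by
  filter_upwards [Lp.coeFn_star (Lp.compMeasurePreserving Inv.inv
    (Measure.measurePreserving_inv μ) f),
    Lp.coeFn_compMeasurePreserving f (Measure.measurePreserving_inv μ)] with x h1 h2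
  rw [Jf, h1, Pi.star_apply, h2]
  rfl

theorem Jf_add {p : ℝ≥0∞} (f g : Lp ℂ p μ) : Jf μ (f + g) = Jf μ f + Jf μ g := by
  apply Lp.ext
  filter_upwards [Jf_ae μ (f + g), Jf_ae μ f, Jf_ae μ g, Lp.coeFn_add (Jf μ f) (Jf μ g),
    inv_ae_eq μ (Lp.coeFn_add f g)] with x h1 h2 h3 h4 h5
  rw [h1, h4, h5, Pi.add_apply, Pi.add_apply, h2, h3, map_add]

theorem Jf_smul {p : ℝ≥0∞} (c : ℂ) (f : Lp ℂ p μ) : Jf μ (c • f) = conj c • Jf μ f := by
  apply Lp.ext
  filter_upwards [Jf_ae μ (c • f), Jf_ae μ f, Lp.coeFn_smul (conj c) (Jf μ f),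
    inv_ae_eq μ (Lp.coeFn_smul c f)] with x h1 h2 h4 h5
  rw [h1, h4, h5, Pi.smul_apply, Pi.smul_apply, h2, smul_eq_mul, smul_eq_mul, map_mul]

theorem Jf_Jf {p : ℝ≥0∞} (f : Lp ℂ p μ) : Jf μ (Jf μ f) = f := by
  apply Lp.ext
  filter_upwards [Jf_ae μ (Jf μ f), inv_ae_eq μ (Jf_ae μ f)] with x h1 h2
  rw [h1, h2, inv_inv, Complex.conj_conj]

theorem inner_Jf (f g : Lp ℂ 2 μ) : ⟪Jf μ f, Jf μ g⟫_ℂ = ⟪g, f⟫_ℂ := by
  rw [L2.inner_def, L2.inner_def, ← integral_inv_eq_self (fun x => ⟪g x, f x⟫_ℂ) μ]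
  refine integral_congr_ae ?_
  filter_upwards [Jf_ae μ f, Jf_ae μ g] with x h1 h2
  rw [h1, h2]
  simp [mul_comm]

/-- The involution on `L²` as a continuous conjugate linear map. -/
noncomputable def JL : Lp ℂ 2 μ →L⋆[ℂ] Lp ℂ 2 μ :=
  LinearMap.mkContinuous
    { toFun := Jf μ
      map_add' := Jf_add μ
      map_smul' := Jf_smul μ } 1 fun f => by
    have h := inner_Jf μ f f
    rw [inner_self_eq_norm_sq_to_K, inner_self_eq_norm_sq_to_K] at h
    have h2 : ‖Jf μ f‖ ^ 2 = ‖f‖ ^ 2 := by exact_mod_cast h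
    rw [one_mul]
    exact ((sq_eq_sq₀ (norm_nonneg _) (norm_nonneg _)).1 h2).le

/-- The involution on `L¹ ∩ L²`. -/
noncomputable def stB (a : B12 μ) : B12 μ :=
  ⟨(Jf μ (j1 μ a), Jf μ (j2 μ a)), by
    filter_upwards [Jf_ae μ (j1 μ a), Jf_ae μ (j2 μ a), inv_ae_eq μ (j12 μ a)] with x h1 h2 h3
    rw [h1, h2, h3]⟩

theorem j1_stB (a : B12 μ) : j1 μ (stB μ a) = Jf μ (j1 μ a) := rfl

end Star

variable [μ.IsInvInvariant]

omit [LocallyCompactSpace G] [T2Space G] [SecondCountableTopology G] in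
theorem conv_Jf (f g : Lp ℂ 1 μ) (x : G) :
    groupConv μ (Jf μ g) (Jf μ f) x = conj (groupConv μ f g x⁻¹) := by
  have h1 := (Measure.measurePreserving_mul_right_inv μ x⁻¹).quasiMeasurePreserving.ae_eq_comp
    (Jf_ae μ f)
  have h2 : groupConv μ (Jf μ g) (Jf μ f) x = ∫ y, conj (f (x⁻¹ * y) * g y⁻¹) ∂μ := by
    refine integral_congr_ae ?_
    filter_upwards [h1, Jf_ae μ g] with y h3 h4
    simp only [Function.comp_apply, mul_inv_rev, inv_inv] at h3
    rw [h3, h4, map_mul, mul_comm]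
  rw [h2, integral_conj, ← integral_mul_left_eq_self _ x]
  simp only [inv_mul_cancel_left, mul_inv_rev, groupConv]

theorem stB_mul (a b : B12 μ) :
    stB μ ((segalB μ).mulA a b) = (segalB μ).mulA (stB μ b) (stB μ a) := by
  apply j1_inj
  apply Lp.ext
  filter_upwards [Jf_ae μ (j1 μ ((segalB μ).mulA a b)), inv_ae_eq μ (j1_mul_ae μ a b),
    j1_mul_ae μ (stB μ b) (stB μ a)] with x h1 h2 h3
  rw [j1_stB, h1, h2, h3, j1_stB, j1_stB, conv_Jf]

omit [LocallyCompactSpace G] [T2Space G] [SecondCountableTopology G] [μ.IsInvInvariant] in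
theorem inner_L2 (g : G) (x y : Lp ℂ 2 μ) : ⟪L2 μ g x, L2 μ g y⟫_ℂ = ⟪x, y⟫_ℂ :=
  (Lp.compMeasurePreservingₗᵢ ℂ (fun y => g⁻¹ * y)
    (measurePreserving_mul_left μ g⁻¹)).inner_map_map x y

omit [LocallyCompactSpace G] [T2Space G] [SecondCountableTopology G] [μ.IsInvInvariant] in
theorem L2_one (x : Lp ℂ 2 μ) : L2 μ 1 x = x := by
  apply Lp.ext
  filter_upwards [L2_ae μ 1 x] with t ht
  rw [ht, inv_one, one_mul]

theorem inner_act (f : Lp ℂ 1 μ) (x y : Lp ℂ 2 μ) :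
    ⟪act μ (rep2 μ) (Jf μ f) x, y⟫_ℂ = ⟪x, act μ (rep2 μ) f y⟫_ℂ := by
  have h1 := clm_act μ (rep2 μ) (innerSL ℂ x) f y
  have h2 := clm_act μ (rep2 μ) (innerSL ℂ y) (Jf μ f) x
  simp only [innerSL_apply_apply, smul_eq_mul] at h1 h2
  rw [h1, ← inner_conj_symm, h2, ← integral_conj, ← integral_inv_eq_self _ μ]
  refine integral_congr_ae ?_
  filter_upwards [inv_ae_eq μ (Jf_ae μ f)] with t ht
  rw [ht, inv_inv, map_mul, Complex.conj_conj, inner_conj_symm]
  congr 1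
  change ⟪L2 μ t⁻¹ x, y⟫_ℂ = ⟪x, L2 μ t y⟫_ℂ
  rw [← inner_L2 μ t, ← L2_mul, mul_inv_cancel, L2_one]

omit [LocallyCompactSpace G] [T2Space G] [SecondCountableTopology G] in
theorem right_ae (h : G) (x : Lp ℂ 2 μ) :
    Jf μ (L2 μ h (Jf μ x)) =ᵐ[μ] fun t => x (t * h) := by
  have h1 := ((measurePreserving_mul_left μ h⁻¹).comp
    (Measure.measurePreserving_inv μ)).quasiMeasurePreserving.ae_eq_comp (Jf_ae μ x)
  filter_upwards [Jf_ae μ (L2 μ h (Jf μ x)), inv_ae_eq μ (L2_ae μ h (Jf μ x)), h1] with t a1 a2 a3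
  simp only [Function.comp_apply, mul_inv_rev, inv_inv] at a3
  rw [a1, a2, a3, Complex.conj_conj]

omit [T2Space G] in
theorem L2_comm (g h : G) (x : Lp ℂ 2 μ) :
    L2 μ g (Jf μ (L2 μ h (Jf μ x))) = Jf μ (L2 μ h (Jf μ (L2 μ g x))) := by
  apply Lp.ext
  filter_upwards [L2_ae μ g (Jf μ (L2 μ h (Jf μ x))),
    (measurePreserving_mul_left μ g⁻¹).quasiMeasurePreserving.ae_eq_comp (right_ae μ h x),
    right_ae μ h (L2 μ g x),
    (quasiMeasurePreserving_mul_right μ h).ae_eq_comp (L2_ae μ g x)] with t a1 a2 a3 a4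
  simp only [Function.comp_apply] at a2 a4
  rw [a1, a2, a3, a4, mul_assoc]

attribute [local instance] SegalData.algNormedAddCommGroup SegalData.algNormedSpace
  SegalData.algCompleteSpace SegalData.algRing SegalData.algTower SegalData.algComm

noncomputable instance starRingB : StarRing (segalB μ).Alg where
  star := stB μ
  star_involutive _ := j1_inj μ (Jf_Jf μ _)
  star_mul := stB_mul μ
  star_add a b := j1_inj μ ((congrArg (Jf μ) (map_add (j1 μ) a b)).trans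
    ((Jf_add μ _ _).trans (map_add (j1 μ) (stB μ a) (stB μ b)).symm))

instance starModuleB : StarModule ℂ (segalB μ).Alg where
  star_smul c a := j1_inj μ ((congrArg (Jf μ) (map_smul (j1 μ) c a)).trans
    ((Jf_smul μ _ _).trans (map_smul (j1 μ) (conj c) (stB μ a)).symm))

/-- The Hilbert algebra of a unimodular group. -/
noncomputable def halg : HAlg G (segalB μ).Alg (Lp ℂ 2 μ) where
  i := (j2 μ).toLinearMap
  L := ((act μ (rep2 μ)).comp (j1 μ)).toLinearMap
  J := JL μ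
  lam := L2 μ
  lamB g := ((repB μ).ρ g).toLinearMap
  i_mul := j2_mul μ
  inner_L a := inner_act μ (j1 μ a)
  J_i _ := rfl
  inner_J := inner_Jf μ
  J_J := Jf_Jf μ
  dense := dense_of_indicator μ 2 ENNReal.ofNat_ne_top (LinearMap.range (j2 μ).toLinearMap)
    fun c _ hs hμs => ⟨ind μ c hs hμs, rfl⟩
  inj := j2_inj μ
  lam_mul := L2_mul μ
  lam_one := L2_one μ
  inner_lam := inner_L2 μ
  i_lam _ _ := rfl
  L_lam g a x := act_LL μ (rep2 μ) g (j1 μ a) x
  lam_comm := L2_comm μ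

end Pool.Agent.Work.MP_dc0135_an.Hedge
end

-- merged part: Pool.Agent.Work.MP_dc0135_an.Hedge.Unimod
section
/-! IN-groups are unimodular; the common point of all closed invariant neighbourhoods. -/

open MeasureTheory Filter Topology
open scoped ENNReal Pointwise

namespace Pool.Agent.Work.MP_dc0135_an.Hedge

variable {G : Type*} [Group G] [TopologicalSpace G] [IsTopologicalGroup G]

theorem IsIN.exists_symm (h : IsIN G) :
    ∃ C ∈ 𝓝 (1 : G), IsCompact C ∧ C⁻¹ = C ∧ ∀ g : G, ∀ x ∈ C, g * x * g⁻¹ ∈ C := by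
  obtain ⟨C, h1, h2, h3⟩ := h
  refine ⟨C ∪ C⁻¹, mem_of_superset h1 Set.subset_union_left, h2.union h2.inv, ?_, ?_⟩
  · rw [Set.union_inv, inv_inv, Set.union_comm]
  · rintro g x (hx | hx)
    · exact Or.inl (h3 g x hx)
    · refine Or.inr ?_
      have := h3 g _ (Set.mem_inv.1 hx)
      rw [Set.mem_inv]
      simpa [mul_assoc] using this

omit [IsTopologicalGroup G] in
theorem exists_point [T2Space G] (h : ¬ IsSIN G) {C : Set G} (hC : C ∈ 𝓝 (1 : G))
    (hc : IsCompact C) (hi : ∀ g : G, ∀ x ∈ C, g * x * g⁻¹ ∈ C) :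
    ∃ w ∈ C, w ≠ 1 ∧ ∀ F ∈ 𝓝 (1 : G), IsClosed F → (∀ g : G, ∀ x ∈ F, g * x * g⁻¹ ∈ F) →
      w ∈ F := by
  unfold IsSIN at h
  push Not at h
  obtain ⟨U, hU, h⟩ := h
  obtain ⟨U', hU1, hU2, hU3⟩ := mem_nhds_iff.1 hU
  let ι := {F : Set G // F ∈ 𝓝 (1 : G) ∧ IsClosed F ∧ ∀ g : G, ∀ x ∈ F, g * x * g⁻¹ ∈ F}
  have hK : IsCompact (C \ U') := hc.diff hU2
  have := hK.inter_iInter_nonempty (fun F : ι => F.1) (fun F => F.2.2.1) fun u => by
    by_contra hne
    rw [Set.not_nonempty_iff_eq_empty] at hne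
    obtain ⟨g, x, hx, hx'⟩ := h (C ∩ ⋂ F ∈ u, F.1)
      (inter_mem hC ((biInter_finset_mem u).2 fun F _ => F.2.1)) (fun x hx => by
        by_contra hxU
        have : x ∈ C \ U' ∩ ⋂ F ∈ u, F.1 := ⟨⟨hx.1, fun h' => hxU (hU1 h')⟩, hx.2⟩
        rw [hne] at this
        exact this)
    refine hx' ⟨hi g x hx.1, ?_⟩
    have := hx.2
    simp only [Set.mem_iInter] at this ⊢
    exact fun F hF => F.2.2.2 g x (this F hF)
  obtain ⟨w, hw1, hw2⟩ := this
  refine ⟨w, hw1.1, fun h1 => hw1.2 (h1 ▸ hU3), fun F f1 f2 f3 => ?_⟩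
  exact Set.mem_iInter.1 hw2 ⟨F, f1, f2, f3⟩

variable [LocallyCompactSpace G] [T2Space G] [SecondCountableTopology G] [MeasurableSpace G]
  [BorelSpace G] (μ : Measure G) [μ.IsHaarMeasure]

theorem IsIN.isInvInvariant (h : IsIN G) : μ.IsInvInvariant := by
  obtain ⟨C, h1, h2, h3, h4⟩ := h.exists_symm
  have p0 : μ C ≠ 0 := (Measure.measure_pos_of_mem_nhds μ h1).ne'
  have p1 : μ C ≠ ∞ := h2.measure_lt_top.ne
  have hr : μ.IsMulRightInvariant := ⟨fun g => by
    have e : Measure.map (· * g) μ C = μ C := by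
      rw [Measure.map_apply (measurable_mul_const g) h2.measurableSet,
        ← measure_preimage_mul μ g C]
      congr 1
      ext x
      simp only [Set.mem_preimage]
      refine ⟨fun hx => ?_, fun hx => ?_⟩
      · simpa [mul_assoc] using h4 g _ hx
      · simpa [mul_assoc] using h4 g⁻¹ _ hx
    rw [measure_eq_div_smul (Measure.map (· * g) μ) μ p0 p1, e, ENNReal.div_self p0 p1, one_smul]⟩
  refine ⟨?_⟩
  rw [measure_eq_div_smul μ.inv μ p0 p1, Measure.inv_apply, h3, ENNReal.div_self p0 p1, one_smul]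

end Pool.Agent.Work.MP_dc0135_an.Hedge
end

-- merged part: Pool.Agent.Work.MP_dc0135_an.Hedge.MainB
section
/-! On an IN-group that is not SIN, no Segal algebra between `L²_c` and `L²` is
pseudo-amenable. -/

open MeasureTheory Filter Topology
open scoped ENNReal InnerProductSpace ComplexConjugate Pointwise

namespace Pool.Agent.Work.MP_dc0135_an.Hedge

namespace HAlg

variable {G B H : Type*} [Group G] [NonUnitalRing B] [Module ℂ B] [StarRing B]
  [NormedAddCommGroup H] [InnerProductSpace ℂ H] (S : HAlg G B H)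

theorem norm_lam_conj {ζ : H} (hζ : ∀ g, S.TH g ζ = ζ) (g x : G) :
    ‖S.lam (g * x * g⁻¹) ζ - ζ‖ = ‖S.lam x ζ - ζ‖ := by
  have h : S.lam g⁻¹ ζ = S.J (S.lam g (S.J ζ)) := by
    conv_lhs => rw [← hζ g, TH_apply, lam_inv]
  rw [← S.norm_TH g (S.lam x ζ - ζ), map_sub, hζ, S.lam_mul, S.lam_mul, h, S.lam_comm x g,
    TH_apply]

theorem inQ_of_fix (w : G) (hw : ∀ ζ, (∀ g, S.TH g ζ = ζ) → S.lam w ζ = ζ) (c : B) :
    S.InQ (star (S.lamB w c - c)) := by
  intro ζ hζ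
  refine ext_inner_right ℂ fun v => ?_
  have h : S.lam w⁻¹ ζ = ζ := by
    conv_lhs => rw [← hw ζ hζ, lam_inv]
  rw [S.inner_L, map_sub, sub_apply, S.L_lam, inner_sub_right, ← inv_inv w, ← inner_lam_left, h,
    sub_self, inner_zero_left]

end HAlg

variable {G : Type} [Group G] [TopologicalSpace G] [IsTopologicalGroup G]
  [LocallyCompactSpace G] [T2Space G] [SecondCountableTopology G] [MeasurableSpace G]
  [BorelSpace G] (μ : Measure G) [μ.IsHaarMeasure]

attribute [local instance] SegalData.algNormedAddCommGroup SegalData.algNormedSpace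
  SegalData.algCompleteSpace SegalData.algRing SegalData.algTower SegalData.algComm

/-- Elements of `L¹ ∩ L²` that vanish off `D`. -/
def VV (D : Set G) : AddSubmonoid (segalB μ).Alg where
  carrier := {a | ∀ᵐ t ∂μ, t ∉ D → j1 μ a t = 0}
  add_mem' {a b} ha hb := by
    have e : j1 μ (a + b) = j1 μ a + j1 μ b := map_add (j1 μ) a b
    simp only [Set.mem_ofPred_eq, e]
    filter_upwards [ha, hb, Lp.coeFn_add (j1 μ a) (j1 μ b)] with t h1 h2 h3 ht
    rw [h3, Pi.add_apply, h1 ht, h2 ht, add_zero]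
  zero_mem' := by
    have e : j1 μ (0 : (segalB μ).Alg) = 0 := map_zero (j1 μ)
    simp only [Set.mem_ofPred_eq, e]
    filter_upwards [Lp.coeFn_zero ℂ 1 μ] with t h1 _ using h1

theorem mem_VV {D : Set G} {a : (segalB μ).Alg} :
    a ∈ VV μ D ↔ ∀ᵐ t ∂μ, t ∉ D → j1 μ a t = 0 := Iff.rfl

theorem mul_mem_VV {D E : Set G} {a b : (segalB μ).Alg} (ha : a ∈ VV μ D) (hb : b ∈ VV μ E) :
    a * b ∈ VV μ (D * E) := by
  filter_upwards [j1_mul_ae μ a b] with t h1 ht
  refine h1.trans (integral_eq_zero_of_ae ?_)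
  have q := ((quasiMeasurePreserving_mul_right μ t).comp (quasiMeasurePreserving_inv μ)).ae hb
  filter_upwards [ha, q] with s h2 h3
  by_cases hs : s ∈ D
  · simp only [Function.comp_apply] at h3
    rw [h3 fun h => ht ⟨s, hs, _, h, by simp⟩, mul_zero]
    rfl
  · rw [h2 hs, zero_mul]
    rfl

theorem lam_mem_VV {D E : Set G} {a : (segalB μ).Alg} (ha : a ∈ VV μ D) (g : G)
    (h : ∀ x ∈ D, g * x ∈ E) : (repB μ).ρ g a ∈ VV μ E := by
  filter_upwards [LL_ae μ g (j1 μ a),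
    (measurePreserving_mul_left μ g⁻¹).quasiMeasurePreserving.ae ha] with t h1 h2 ht
  exact h1.trans (h2 fun h' => ht (by simpa using h _ h'))

theorem sub_mem_VV {D : Set G} {a b : (segalB μ).Alg} (ha : a ∈ VV μ D) (hb : b ∈ VV μ D) :
    a - b ∈ VV μ D := by
  have e : j1 μ (a - b) = j1 μ a - j1 μ b := map_sub (j1 μ) a b
  rw [mem_VV, e]
  filter_upwards [ha, hb, Lp.coeFn_sub (j1 μ a) (j1 μ b)] with t h1 h2 h3 ht
  rw [h3, Pi.sub_apply, h1 ht, h2 ht, sub_zero]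

omit [SecondCountableTopology G] in
theorem exists_moved (w : G) (hw : w ≠ 1) : ∃ ξ : Lp ℂ 2 μ, L2 μ w ξ ≠ ξ := by
  obtain ⟨U, V, hU, hV, h1, h2, hd⟩ := t2_separation hw.symm
  obtain ⟨K, hK, hK1⟩ := exists_compact_mem_nhds (1 : G)
  set W := U ∩ (fun x => w * x) ⁻¹' V ∩ interior K with hW
  have o : IsOpen W := (hU.inter (hV.preimage (by fun_prop))).inter isOpen_interior
  have m : (1 : G) ∈ W := ⟨⟨h1, by simpa using h2⟩, mem_interior_iff_mem_nhds.2 hK1⟩
  have f : μ W ≠ ∞ := ((measure_mono (Set.inter_subset_right.trans interior_subset)).trans_lt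
    hK.measure_lt_top).ne
  refine ⟨indicatorConstLp 2 o.measurableSet f 1, fun h => ?_⟩
  have a1 := indicatorConstLp_coeFn (p := 2) (hs := o.measurableSet) (hμs := f) (c := (1 : ℂ))
  have a2 := L2_ae μ w (indicatorConstLp 2 o.measurableSet f (1 : ℂ))
  rw [h] at a2
  have a3 : ∀ᵐ t ∂μ, t ∉ W := by
    filter_upwards [a1, a2, (measurePreserving_mul_left μ w⁻¹).quasiMeasurePreserving.ae_eq_comp a1]
      with t b1 b2 b3 ht
    simp only [Function.comp_apply] at b3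
    rw [b1, b3, Set.indicator_of_mem ht, Set.indicator_of_notMem] at b2
    · exact one_ne_zero b2
    · intro h'
      exact Set.disjoint_left.1 hd ht.1.1 (by simpa using h'.1.2)
  exact (o.measure_pos μ ⟨1, m⟩).ne' (measure_eq_zero_iff_ae_notMem.2 a3)

theorem exists_bump (w : G) (hw : w ≠ 1) {C : Set G} (hC : C ∈ 𝓝 (1 : G)) (hc : IsCompact C) :
    ∃ c ∈ VV μ C, ∃ ξ : Lp ℂ 2 μ,
      L2 μ w (act μ (rep2 μ) (j1 μ c) ξ) ≠ act μ (rep2 μ) (j1 μ c) ξ := by
  obtain ⟨ξ, hξ⟩ := exists_moved μ w hw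
  set e := ‖L2 μ w ξ - ξ‖ with he
  have he0 : 0 < e := norm_pos_iff.2 (sub_ne_zero.2 hξ)
  set U := {t | ‖L2 μ t ξ - ξ‖ < e / 4} ∩ interior C with hU
  have o : IsOpen U := (isOpen_lt ((continuous_L2 μ ξ).sub continuous_const).norm
    continuous_const).inter isOpen_interior
  have m : (1 : G) ∈ U := ⟨by simpa [L2_one] using he0, mem_interior_iff_mem_nhds.2 hC⟩
  have s : U ⊆ C := Set.inter_subset_right.trans interior_subset
  have f : μ U < ∞ := (measure_mono s).trans_lt hc.measure_lt_top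
  have p : 0 < μ.real U := ENNReal.toReal_pos (o.measure_pos μ ⟨1, m⟩).ne' f.ne
  have a1 : ⇑(j1 μ (ind μ 1 o.measurableSet f.ne)) =ᵐ[μ] U.indicator fun _ => (1 : ℂ) :=
    indicatorConstLp_coeFn (hs := o.measurableSet) (hμs := f.ne)
  refine ⟨ind μ 1 o.measurableSet f.ne, ?_, ξ, fun h => ?_⟩
  · filter_upwards [a1] with t h1 ht
    rw [h1, Set.indicator_of_notMem fun h => ht (s h)]
  set η := act μ (rep2 μ) (j1 μ (ind μ 1 o.measurableSet f.ne)) ξ with hη
  have a2 : η = ∫ t in U, L2 μ t ξ ∂μ := by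
    rw [hη, act_apply, ← integral_indicator o.measurableSet]
    refine integral_congr_ae ?_
    filter_upwards [a1] with t h1
    rw [h1]
    by_cases ht : t ∈ U
    · simp only [Set.indicator_of_mem ht, one_smul]; rfl
    · simp only [Set.indicator_of_notMem ht, zero_smul]
  have a3 : ‖η - μ.real U • ξ‖ ≤ e / 4 * μ.real U := by
    rw [a2, ← setIntegral_const, ← integral_sub
      (((continuous_L2 μ ξ).continuousOn.integrableOn_compact hc).mono_set s)
      (integrableOn_const f.ne)]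
    exact norm_setIntegral_le_of_norm_le_const f fun t ht => ht.1.le
  have a4 : μ.real U • (L2 μ w ξ - ξ) = (η - μ.real U • ξ) - L2 μ w (η - μ.real U • ξ) := by
    rw [map_sub, h, ContinuousLinearMap.map_smul_of_tower, smul_sub]
    abel
  have a5 := norm_sub_le (η - μ.real U • ξ) (L2 μ w (η - μ.real U • ξ))
  have a6 : ‖L2 μ w (η - μ.real U • ξ)‖ = ‖η - μ.real U • ξ‖ := (rep2 μ).norm_eq _ _
  rw [← a4, norm_smul, Real.norm_of_nonneg p.le, a6] at a5
  nlinarith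

section Inv

variable [μ.IsInvInvariant]

theorem star_mem_VV {D : Set G} {a : (segalB μ).Alg} (ha : a ∈ VV μ D) : star a ∈ VV μ D⁻¹ := by
  filter_upwards [Jf_ae μ (j1 μ a),
    (Measure.measurePreserving_inv μ).quasiMeasurePreserving.ae ha] with t h1 h2 ht
  exact h1.trans (by rw [h2 ht, map_zero])

theorem TB_mem_VV {D : Set G} (hD : ∀ g : G, ∀ x ∈ D, g * x * g⁻¹ ∈ D) (g : G)
    {a : (segalB μ).Alg} (ha : a ∈ VV μ D) : (halg μ).TB g a ∈ VV μ D := by
  refine lam_mem_VV μ (star_mem_VV μ (lam_mem_VV μ (E := {x | g * x⁻¹ ∈ D}) (star_mem_VV μ ha) g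
    fun x hx => ?_)) g fun x hx => by simpa using hx
  simpa [mul_assoc] using hD g _ hx

end Inv

theorem conj_mul {G : Type*} [Group G] {D E : Set G}
    (hD : ∀ g : G, ∀ x ∈ D, g * x * g⁻¹ ∈ D)
    (hE : ∀ g : G, ∀ x ∈ E, g * x * g⁻¹ ∈ E) : ∀ g : G, ∀ x ∈ D * E, g * x * g⁻¹ ∈ D * E := by
  rintro g _ ⟨x, hx, y, hy, rfl⟩
  exact ⟨_, hD g x hx, _, hE g y hy, by simp [mul_assoc]⟩

theorem not_pseudoAmenable_of_IN (hIN : IsIN G) (hS : ¬ IsSIN G) {A : Type*}
    [NonUnitalNormedRing A] [NormedSpace ℂ A] [IsScalarTower ℂ A A] [SMulCommClass ℂ A A]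
    [CompleteSpace A] (j : A →ₗ[ℂ] Lp ℂ 1 μ) (hA : IsSegalAlgebra μ A j)
    (h2 : ∀ a, MemLp (j a) 2 μ)
    (hc : ∀ f : Lp ℂ 1 μ, MemLp f 2 μ → (∃ K, IsCompact K ∧ ∀ᵐ x ∂μ, x ∉ K → f x = 0) →
      ∃ a, j a = f) : ¬ IsPseudoAmenable A := by
  have := hIN.isInvInvariant μ
  obtain ⟨C, c1, c2, c3, c4⟩ := hIN.exists_symm
  obtain ⟨w, w1, w2, w3⟩ := exists_point hS c1 c2 c4
  obtain ⟨c, hc1, ξ, hξ⟩ := exists_bump μ w w2 c1 c2
  let ι0 : A → B12 μ := fun a => ⟨(j a, (h2 a).toLp), (h2 a).coeFn_toLp.symm⟩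
  have e0 : ∀ a, j1 μ (ι0 a) = j a := fun _ => rfl
  let ι1 : A →ₗ[ℂ] B12 μ :=
    { toFun := ι0
      map_add' := fun a b => j1_inj μ (by simp only [map_add, e0])
      map_smul' := fun r a => j1_inj μ (by simp only [map_smul, e0, RingHom.id_apply]) }
  have e1 : ∀ a, j1 μ (ι1 a) = j a := e0
  have cj : Continuous j := AddMonoidHomClass.continuous_of_bound j 1 (by simpa using hA.norm_le)
  have cι : Continuous ι1 := by
    refine ι1.continuous_of_seq_closed_graph fun u x y hx hy => j1_inj μ ?_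
    exact tendsto_nhds_unique (((j1 μ).continuous.tendsto y).comp hy) ((cj.tendsto x).comp hx)
  let f : A →L[ℂ] Lp ℂ 2 μ := (j2 μ).comp ⟨ι1, cι⟩
  set D := C * C * (C * C)⁻¹ with hD
  have d1 : IsCompact D := (c2.mul c2).mul (c2.mul c2).inv
  have d2 : ∀ g : G, ∀ x ∈ D, g * x * g⁻¹ ∈ D := conj_mul (conj_mul c4 c4) (by
    rw [mul_inv_rev, c3]; exact conj_mul c4 c4)
  obtain ⟨κ, k0, k1⟩ := norm_le_of_supp μ (d1.mul d1).measurableSet (d1.mul d1).measure_lt_top.ne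
  let res := LpToLpRestrictCLM G ℂ ℂ μ 2 Dᶜ
  have mres : ∀ x : Lp ℂ 2 μ, res x = 0 ↔ ∀ᵐ t ∂μ, t ∉ D → x t = 0 := fun x => by
    rw [Lp.eq_zero_iff_ae_eq_zero]
    refine Iff.trans ?_ (ae_restrict_iff' d1.measurableSet.compl)
    exact ⟨fun h => (LpToLpRestrictCLM_coeFn ℂ Dᶜ x).symm.trans h,
      fun h => (LpToLpRestrictCLM_coeFn ℂ Dᶜ x).trans h⟩
  let f' : (res.comp f).ker →L[ℂ] res.ker :=
    (f.comp (res.comp f).ker.subtypeL).codRestrict res.ker fun a => a.2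
  have surj : Function.Surjective f' := by
    rintro ⟨x, hx⟩
    have hx' := (mres x).1 hx
    have i1 : ⇑x =ᵐ[μ] D.indicator x := by
      filter_upwards [hx'] with t ht
      by_cases h : t ∈ D
      · rw [Set.indicator_of_mem h]
      · rw [Set.indicator_of_notMem h, ht h]
    have i2 : MemLp x 1 μ := (((Lp.memLp x).indicator d1.measurableSet
      ).mono_exponent_of_measure_support_ne_top (fun t ht => Set.indicator_of_notMem ht _)
        d1.measure_lt_top.ne (by norm_num)).ae_eq i1.symm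
    obtain ⟨a, ha⟩ := hc i2.toLp ((Lp.memLp x).ae_eq i2.coeFn_toLp.symm) ⟨D, d1, by
      filter_upwards [hx', i2.coeFn_toLp] with t h1 h2 ht
      rw [h2, h1 ht]⟩
    have i3 : f a = x := Lp.ext ((j12 μ (ι1 a)).symm.trans (by rw [e1, ha]; exact i2.coeFn_toLp))
    exact ⟨⟨a, show res (f a) = 0 by rw [i3]; exact hx⟩, Subtype.ext i3⟩
  obtain ⟨κ', k2, k3⟩ := f'.exists_preimage_norm_le surj
  obtain ⟨T, t1, t2, -⟩ := hA.translation
  have one : (1 : G) ∈ C := mem_of_mem_nhds c1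
  have hy : (halg μ).lamB w c - c ∈ VV μ (C * C) :=
    sub_mem_VV μ (lam_mem_VV μ hc1 w fun x hx => Set.mul_mem_mul w1 hx) ((mem_VV μ).2 (by
      filter_upwards [hc1] with t h1 ht using h1 fun h => ht ⟨1, one, t, h, one_mul t⟩))
  refine (halg μ).obstruction (A := A) ι1 (fun a b => j1_inj μ (Lp.ext ?_)) ‖f‖ (norm_nonneg _)
    f.le_opNorm (VV μ D) (fun g x hx => TB_mem_VV μ d2 g hx) (κ + κ') (by positivity)
    (fun x hx y hy => ?_) (fun x hx g => ?_) (star ((halg μ).lamB w c - c))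
    ((halg μ).inQ_of_fix w (fun ζ hζ => ?_) c) ?_ ?_
  · exact (hA.map_mul a b).trans (j1_mul_ae μ (ι1 a) (ι1 b)).symm
  · refine ContinuousLinearMap.opNorm_le_bound _ (by positivity) fun v => ?_
    refine (norm_act_le μ (rep2 μ) (j1 μ (x * y)) v).trans ?_
    gcongr
    refine (k1 _ (mul_mem_VV μ hx hy)).trans ?_
    gcongr
    · linarith
    · exact le_rfl
  · obtain ⟨a, a1, a2⟩ := k3 ⟨j2 μ x, (mres _).2 (by
      filter_upwards [hx, j12 μ x] with t h1 h2 ht
      rw [← h2, h1 ht])⟩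
    have a3 : ι1 a = x := j2_inj μ (congrArg Subtype.val a1)
    refine ⟨T g a, j1_inj μ (Lp.ext ((t1 g a).trans ?_)), ?_⟩
    · rw [← e1, a3]
      exact (LL_ae μ g (j1 μ x)).symm
    · rw [t2]
      refine a2.trans ?_
      gcongr
      · linarith
      · exact le_rfl
  · refine sub_eq_zero.1 (norm_eq_zero.1 (le_antisymm (le_of_forall_pos_le_add fun ε hε => ?_)
      (norm_nonneg _)))
    have cont : Continuous fun x => ‖(halg μ).lam x ζ - ζ‖ :=
      ((continuous_L2 μ ζ).sub continuous_const).norm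
    rw [zero_add]
    refine w3 {x | ‖(halg μ).lam x ζ - ζ‖ ≤ ε} ?_ (isClosed_le cont continuous_const)
      fun g x hx => ?_
    · refine mem_of_superset ((isOpen_lt cont (continuous_const (y := ε))).mem_nhds (x := 1) ?_)
        fun x hx => show _ ≤ ε from le_of_lt hx
      simpa [(halg μ).lam_one] using hε
    · exact ((halg μ).norm_lam_conj hζ g x).trans_le hx
  · rw [star_star]
    exact mul_mem_VV μ hy (star_mem_VV μ hy)
  · intro h0
    rw [star_star] at h0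
    have h1 := (halg μ).inj (h0.trans (map_zero _).symm)
    have h3 := congrArg (halg μ).L h1
    rw [HAlg.L_mul, HAlg.L_star, map_zero, CStarRing.mul_star_self_eq_zero_iff, map_sub,
      sub_eq_zero] at h3
    exact hξ (((halg μ).L_lam w c ξ).symm.trans (congrArg (fun X => X ξ) h3))

end Pool.Agent.Work.MP_dc0135_an.Hedge
end
end
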