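import Pool.Agent.Work.MP_dc0135_an.Tensor
import Pool.Agent.Work.MP_dc0135_an.Hedge.HDefs
import Pool.Agent.Work.MP_dc0135_an.Hedge.MainB

-- merged part: Pool.Agent.Work.MP_dc0135_an.Hedge.GraphSegal
section
/-! A Segal algebra built from a sequence of functionals on `L¹(G)`, with a left invariant
limit functional. -/

open MeasureTheory Filter Topology
open scoped ENNReal BoundedContinuousFunction

namespace Pool.Agent.Work.MP_dc0135_an.Hedge

variable {G : Type} [Group G] [TopologicalSpace G] [IsTopologicalGroup G]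

/-- Right shift of the group variable. -/
noncomputable def sh (g : G) : (ℕ × G →ᵇ ℂ) →L[ℂ] (ℕ × G →ᵇ ℂ) :=
  BoundedContinuousFunction.compContinuousCLM ℂ ℂ ⟨fun p => (p.1, p.2 * g), by fun_prop⟩

theorem sh_apply (g : G) (Θ : ℕ × G →ᵇ ℂ) (n : ℕ) (x : G) : sh g Θ (n, x) = Θ (n, x * g) := rfl

theorem sh_mul (g h : G) (Θ : ℕ × G →ᵇ ℂ) : sh (g * h) Θ = sh g (sh h Θ) := by
  ext ⟨n, x⟩
  simp only [sh_apply, mul_assoc]

theorem norm_sh (g : G) (Θ : ℕ × G →ᵇ ℂ) : ‖sh g Θ‖ = ‖Θ‖ := by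
  have h : ∀ (g : G) (Θ : ℕ × G →ᵇ ℂ), ‖sh g Θ‖ ≤ ‖Θ‖ := fun g Θ =>
    BoundedContinuousFunction.norm_compContinuous_le _ _
  refine le_antisymm (h g Θ) ((le_of_eq ?_).trans (h g⁻¹ _))
  congr 1
  ext ⟨n, x⟩
  simp only [sh_apply, inv_mul_cancel_right]

variable [LocallyCompactSpace G] [T2Space G] [SecondCountableTopology G] [MeasurableSpace G]
  [BorelSpace G] (μ : Measure G) [μ.IsHaarMeasure] (th : ℕ → Lp ℂ 1 μ →L[ℂ] ℂ)

/-- The graph space. -/
def SA : Submodule ℂ (Lp ℂ 1 μ × (ℕ × G →ᵇ ℂ) × ℂ) where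
  carrier := {e | (∀ n x, e.2.1 (n, x) = th n (LL μ x e.1)) ∧ (Continuous fun g => sh g e.2.1) ∧
    ∀ x, Tendsto (fun n => e.2.1 (n, x)) atTop (𝓝 e.2.2)}
  add_mem' {a b} ha hb := ⟨fun n x => by simp [ha.1, hb.1],
    (ha.2.1.add hb.2.1).congr fun g => (map_add (sh g) _ _).symm,
    fun x => (ha.2.2 x).add (hb.2.2 x)⟩
  zero_mem' := ⟨fun n x => by simp, by simpa using continuous_const,
    fun x => tendsto_const_nhds⟩
  smul_mem' c a ha := ⟨fun n x => by simp [ha.1],
    (ha.2.1.const_smul c).congr fun g => (map_smul (sh g) _ _).symm,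
    fun x => (ha.2.2 x).const_smul c⟩

omit [LocallyCompactSpace G] [T2Space G] [SecondCountableTopology G] in
theorem isClosed_SA : IsClosed (SA μ th : Set (Lp ℂ 1 μ × (ℕ × G →ᵇ ℂ) × ℂ)) := by
  refine isClosed_of_closure_subset fun e he => ⟨fun n x => ?_, ?_, fun x => ?_⟩
  · exact closure_minimal (t := {e : Lp ℂ 1 μ × (ℕ × G →ᵇ ℂ) × ℂ |
      e.2.1 (n, x) = th n (LL μ x e.1)}) (fun a ha => ha.1 n x)
      (isClosed_eq (by fun_prop) (by fun_prop)) he
  · refine continuous_of_uniform_approx_of_continuous fun u hu => ?_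
    obtain ⟨ε, hε, h⟩ := Metric.mem_uniformity_dist.1 hu
    obtain ⟨a, ha, h1⟩ := Metric.mem_closure_iff.1 he ε hε
    refine ⟨_, ha.2.1, fun g => h ?_⟩
    rw [dist_eq_norm, ← map_sub, norm_sh]
    rw [dist_eq_norm] at h1
    exact ((norm_fst_le (e - a).2).trans (norm_snd_le (e - a))).trans_lt h1
  · refine Metric.tendsto_atTop.2 fun ε hε => ?_
    obtain ⟨a, ha, h1⟩ := Metric.mem_closure_iff.1 he (ε / 3) (by positivity)
    obtain ⟨N, hN⟩ := Metric.tendsto_atTop.1 (ha.2.2 x) (ε / 3) (by positivity)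
    refine ⟨N, fun n hn => ?_⟩
    rw [dist_eq_norm] at h1
    have h2 : dist (e.2.1 (n, x)) (a.2.1 (n, x)) < ε / 3 := by
      refine (BoundedContinuousFunction.dist_coe_le_dist _).trans_lt ?_
      rw [dist_eq_norm]
      exact ((norm_fst_le (e - a).2).trans (norm_snd_le (e - a))).trans_lt h1
    have h3 : dist e.2.2 a.2.2 < ε / 3 := by
      rw [dist_eq_norm]
      exact ((norm_snd_le (e - a).2).trans (norm_snd_le (e - a))).trans_lt h1
    have h4 := dist_triangle4_right (e.2.1 (n, x)) e.2.2 (a.2.1 (n, x)) a.2.2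
    linarith [hN n hn]

instance completeSpace_SA : CompleteSpace (SA μ th) := (isClosed_SA μ th).completeSpace_coe

/-- Left translation on the graph space. -/
noncomputable def repA : IsoRep G (SA μ th) where
  ρ g := (((LL μ g).prodMap ((sh g).prodMap (ContinuousLinearMap.id ℂ ℂ))).comp
    (SA μ th).subtypeL).codRestrict (SA μ th) fun a =>
      ⟨fun n x => (a.2.1 n (x * g)).trans (by rw [LL_mul]; rfl),
        (a.2.2.1.comp (continuous_mul_const g)).congr fun x => sh_mul x g _,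
        fun x => a.2.2.2 (x * g)⟩
  map_mul x y a := Subtype.ext (Prod.ext (LL_mul μ x y _) (Prod.ext (sh_mul x y _) rfl))
  norm_eq x a := by
    change max ‖LL μ x a.1.1‖ (max ‖sh x a.1.2.1‖ ‖a.1.2.2‖) = max ‖a.1.1‖ (max ‖a.1.2.1‖ ‖a.1.2.2‖)
    rw [norm_LL, norm_sh]
  cont a := ((continuous_LL μ a.1.1).prodMk (a.2.2.1.prodMk continuous_const)).subtype_mk _

theorem mem_SA (s a : Lp ℂ 1 μ) (c : ℂ) (B : ℕ → G → ℂ) (η : ℕ → ℝ) (C : ℝ)
    (h1 : Tendsto η atTop (𝓝 0)) (h2 : ∀ n x, ‖th n (LL μ x s) - B n x‖ ≤ η n)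
    (h3 : ∀ n x, ‖B n x‖ ≤ C) (h4 : ∀ x, Tendsto (fun n => B n x) atTop (𝓝 c))
    (h5 : ∀ n x g g', ‖B n (x * g) - B n (x * g')‖ ≤ 2 * ‖LL μ g a - LL μ g' a‖) :
    ∃ e : SA μ th, e.1.1 = s ∧ e.1.2.2 = c := by
  obtain ⟨M, hM⟩ := h1.bddAbove_range
  have cont : Continuous fun p : ℕ × G => th p.1 (LL μ p.2 s) :=
    continuous_prod_of_discrete_left.2 fun n => (th n).continuous.comp (continuous_LL μ s)
  let Θ : ℕ × G →ᵇ ℂ := BoundedContinuousFunction.ofNormedAddCommGroup _ cont (M + C) fun p =>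
    (norm_le_norm_sub_add _ (B p.1 p.2)).trans
      (add_le_add ((h2 _ _).trans (hM ⟨_, rfl⟩)) (h3 _ _))
  have hΘ : ∀ n x, Θ (n, x) = th n (LL μ x s) := fun _ _ => rfl
  refine ⟨⟨(s, Θ, c), hΘ, continuous_iff_continuousAt.2 fun g₀ => ?_, fun x => ?_⟩, rfl, rfl⟩
  · refine Metric.tendsto_nhds.2 fun ε hε => ?_
    obtain ⟨N, hN⟩ := eventually_atTop.1 (h1.eventually (gt_mem_nhds (show 0 < ε / 8 by positivity)))
    set K := ∑ n ∈ Finset.range N, ‖th n‖ with hK
    have t1 : Tendsto (fun g => K * ‖LL μ g s - LL μ g₀ s‖) (𝓝 g₀) (𝓝 0) := by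
      simpa using (tendsto_iff_norm_sub_tendsto_zero.1 ((continuous_LL μ s).tendsto g₀)).const_mul K
    have t2 := tendsto_iff_norm_sub_tendsto_zero.1 ((continuous_LL μ a).tendsto g₀)
    filter_upwards [t1.eventually (gt_mem_nhds (show 0 < ε / 2 by positivity)),
      t2.eventually (gt_mem_nhds (show 0 < ε / 8 by positivity))] with g g1 g2
    refine lt_of_le_of_lt ((BoundedContinuousFunction.dist_le (by positivity)).2 ?_)
      (half_lt_self hε)
    rintro ⟨n, x⟩
    simp only [sh_apply, hΘ, dist_eq_norm]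
    rcases lt_or_ge n N with hn | hn
    · rw [LL_mul, LL_mul, ← map_sub, ← map_sub]
      refine ((th n).le_opNorm _).trans (le_trans ?_ g1.le)
      rw [norm_LL]
      gcongr
      exact Finset.single_le_sum (f := fun n => ‖th n‖) (fun _ _ => norm_nonneg _)
        (Finset.mem_range.2 hn)
    · have e : th n (LL μ (x * g) s) - th n (LL μ (x * g₀) s) =
          (th n (LL μ (x * g) s) - B n (x * g)) - (th n (LL μ (x * g₀) s) - B n (x * g₀)) +
            (B n (x * g) - B n (x * g₀)) := by ring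
      rw [e]
      refine (norm_add_le_of_le (norm_sub_le_of_le (h2 _ _) (h2 _ _)) (h5 _ _ _ _)).trans ?_
      linarith [hN n hn]
  · have t1 : Tendsto (fun n => th n (LL μ x s) - B n x) atTop (𝓝 0) :=
      squeeze_zero_norm (fun n => h2 n x) h1
    simpa [hΘ] using t1.add (h4 x)

theorem exists_segal_of (d : ℕ → Lp ℂ 1 μ) (hd : DenseRange d)
    (h0 : ∀ m, ∃ e : SA μ th, e.1.1 = d m ∧ e.1.2.2 = 0) (e : SA μ th) (he : e.1.2.2 = 1) :
    ∃ (B : Type) (_ : NonUnitalNormedRing B) (_ : NormedSpace ℂ B) (_ : IsScalarTower ℂ B B)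
      (_ : SMulCommClass ℂ B B) (_ : CompleteSpace B) (j : B →ₗ[ℂ] Lp ℂ 1 μ),
      IsSegalAlgebra μ B j ∧ ¬ IsPseudoAmenable B := by
  let D : SegalData μ (SA μ th) :=
    { j := (ContinuousLinearMap.fst ℂ _ _).comp (SA μ th).subtypeL
      R := repA μ th
      equiv := fun _ _ => rfl
      norm_le := fun a => norm_fst_le a.1
      inj := fun a b h => by
        have h1 : a.1.1 = b.1.1 := h
        have h2 : a.1.2.1 = b.1.2.1 := by
          ext ⟨n, x⟩
          rw [a.2.1, b.2.1, h1]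
        exact Subtype.ext (Prod.ext h1 (Prod.ext h2
          (tendsto_nhds_unique (a.2.2.2 1) (h2 ▸ b.2.2.2 1))))
      dense := Dense.mono (by
        rintro _ ⟨m, rfl⟩
        obtain ⟨e, h, -⟩ := h0 m
        exact ⟨e, h⟩) hd }
  let φ : SA μ th →L[ℂ] ℂ := (ContinuousLinearMap.snd ℂ _ _).comp
    ((ContinuousLinearMap.snd ℂ _ _).comp (SA μ th).subtypeL)
  let I : Lp ℂ 1 μ →L[ℂ] ℂ := pair μ (fun _ => 1) aestronglyMeasurable_const 1 (by simp)
  have hI : ∀ f, I f = ∫ y, f y ∂μ := fun f => by simp [I, pair_apply]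
  obtain ⟨K, hK, hK1⟩ := exists_compact_mem_nhds (1 : G)
  obtain ⟨m, hm⟩ := hd.exists_mem_open (s := {f | I f ≠ 0})
    (isOpen_ne_fun I.continuous continuous_const)
    ⟨indicatorConstLp 1 hK.measurableSet hK.measure_lt_top.ne 1, by
      simp only [Set.mem_ofPred_eq, hI, integral_indicatorConstLp, Complex.real_smul, mul_one]
      exact_mod_cast (ENNReal.toReal_pos (Measure.measure_pos_of_mem_nhds μ hK1).ne'
        hK.measure_lt_top.ne).ne'⟩
  obtain ⟨e', h1, h2⟩ := h0 m
  refine D.exists_segal φ (e - (I e.1.1 / I (d m)) • e') (fun b => ?_) ?_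
  · rw [clm_act]
    have : ∀ y, φ (D.R.ρ y b) = φ b := fun _ => rfl
    simp only [this, integral_smul_const, ← hI, map_sub, map_smul]
    have e1 : D.j e = e.1.1 := rfl
    have e2 : D.j e' = d m := h1
    rw [e1, e2, smul_eq_mul, smul_eq_mul, div_mul_cancel₀ _ hm, sub_self, zero_mul]
  · have e1 : φ e = 1 := he
    have e2 : φ e' = 0 := h2
    simp [e1, e2]

end Pool.Agent.Work.MP_dc0135_an.Hedge
end

-- merged part: Pool.Agent.Work.MP_dc0135_an.Hedge.CaseA
section
/-! A group that is not IN carries a Segal algebra without right approximate units. -/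

open MeasureTheory Filter Topology
open scoped ENNReal Pointwise

namespace Pool.Agent.Work.MP_dc0135_an.Hedge

theorem exists_seq_rec {α : Type*} (P : ℕ → α → Prop) (r : ℕ → α → α → Prop)
    (h : ∀ n (F : Finset α), ∃ y, P n y ∧ ∀ x ∈ F, r n x y) :
    ∃ f : ℕ → α, ∀ n, P n (f n) ∧ ∀ m < n, r n (f m) (f n) := by
  classical
  choose p hp using h
  let st : ℕ → Finset α := fun n => Nat.rec ∅ (fun k F => insert (p k F) F) n
  have mono : Monotone st := monotone_nat_of_le_succ fun n => Finset.subset_insert _ _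
  exact ⟨fun n => p n (st n), fun n => ⟨(hp n _).1, fun m hm =>
    (hp n _).2 _ (mono hm (Finset.mem_insert_self _ _))⟩⟩

section PI

variable {X : Type*} [MeasurableSpace X] (μ : Measure X)

/-- Integration over a set, as a functional on `L¹`. -/
noncomputable def PI (E : Set X) : Lp ℂ 1 μ →L[ℂ] ℂ :=
  LinearMap.mkContinuous
    { toFun := fun s => ∫ t in E, s t ∂μ
      map_add' := fun f g => by
        rw [← integral_add (L1.integrable_coeFn f).integrableOn
          (L1.integrable_coeFn g).integrableOn]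
        exact integral_congr_ae (ae_restrict_of_ae (Lp.coeFn_add f g))
      map_smul' := fun c f => by
        rw [RingHom.id_apply, ← integral_smul]
        exact integral_congr_ae (ae_restrict_of_ae (Lp.coeFn_smul c f)) }
    1 fun f => by
      rw [one_mul, L1.norm_eq_integral_norm]
      exact (norm_integral_le_integral_norm _).trans (setIntegral_le_integral
        (L1.integrable_coeFn f).norm (Eventually.of_forall fun _ => norm_nonneg _))

theorem PI_apply (E : Set X) (s : Lp ℂ 1 μ) : PI μ E s = ∫ t in E, s t ∂μ := rfl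

theorem norm_PI_le (E : Set X) (s : Lp ℂ 1 μ) : ‖PI μ E s‖ ≤ ‖s‖ := by
  have := (PI μ E).le_of_opNorm_le (LinearMap.mkContinuous_norm_le _ zero_le_one _) s
  rwa [one_mul] at this

theorem norm_PI_sub_le (E E' : Set X) (s : Lp ℂ 1 μ) : ‖PI μ E s - PI μ E' s‖ ≤ 2 * ‖s‖ :=
  (norm_sub_le_of_le (norm_PI_le μ E s) (norm_PI_le μ E' s)).trans (two_mul _).ge

end PI

variable {G : Type} [Group G] [TopologicalSpace G] [IsTopologicalGroup G]
  [LocallyCompactSpace G] [T2Space G] [SecondCountableTopology G] [MeasurableSpace G]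
  [BorelSpace G] (μ : Measure G) [μ.IsHaarMeasure]

omit [LocallyCompactSpace G] [T2Space G] [SecondCountableTopology G] in
theorem PI_LL (E : Set G) (x : G) (s : Lp ℂ 1 μ) :
    PI μ E (LL μ x s) = PI μ ((fun t => x * t) ⁻¹' E) s := by
  rw [PI_apply, PI_apply, integral_congr_ae (ae_restrict_of_ae (LL_ae μ x s)),
    ← (measurePreserving_mul_left μ x).setIntegral_preimage_emb
      (MeasurableEquiv.mulLeft x).measurableEmbedding]
  simp only [inv_mul_cancel_left]

theorem eventually_right (s : Lp ℂ 1 μ) (ε : ℝ) (hε : 0 < ε) :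
    ∀ᶠ v in 𝓝 (1 : G), ∀ E, ‖PI μ E s - PI μ ((fun t => t * v⁻¹) ⁻¹' E) s‖ ≤ ε := by
  have ac : μ ≪ μ.inv := absolutelyContinuous_inv μ
  have hi : Integrable (fun t => (μ.rnDeriv μ.inv t).toReal • s t) μ.inv :=
    (integrable_rnDeriv_smul_iff ac).2 (L1.integrable_coeFn s)
  set g := hi.toL1 with hg
  have e1 : ∀ E, PI μ E s = PI μ.inv E g := fun E => by
    rw [PI_apply, PI_apply, ← setIntegral_rnDeriv_smul' ac]
    exact (integral_congr_ae (ae_restrict_of_ae hi.coeFn_toL1)).symm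
  let c : G → C(G, G) := fun v => ⟨fun y => y * v, by fun_prop⟩
  have hc : Continuous c := by
    apply ContinuousMap.continuous_of_continuous_uncurry
    simp only [c]
    exact (continuous_snd.mul continuous_fst)
  have cont := Continuous.compMeasurePreservingLp (μ := μ.inv) (ν := μ.inv)
    (continuous_const (y := g)) hc (fun v => measurePreserving_mul_right μ.inv v)
    ENNReal.one_ne_top
  have e2 : Lp.compMeasurePreserving (c 1) (measurePreserving_mul_right μ.inv 1) g = g := by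
    apply Lp.ext
    filter_upwards [Lp.coeFn_compMeasurePreserving g (measurePreserving_mul_right μ.inv 1)]
      with t ht
    exact ht.trans (congrArg g (mul_one t))
  have t1 := tendsto_iff_norm_sub_tendsto_zero.1 (cont.tendsto 1)
  rw [e2] at t1
  filter_upwards [t1.eventually (gt_mem_nhds hε)] with v hv E
  have e3 : PI μ.inv ((fun t => t * v⁻¹) ⁻¹' E) g = PI μ.inv E
      (Lp.compMeasurePreserving (c v) (measurePreserving_mul_right μ.inv v) g) := by
    rw [PI_apply, PI_apply, ← (measurePreserving_mul_right μ.inv v).setIntegral_preimage_emb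
      (MeasurableEquiv.mulRight v).measurableEmbedding, Set.preimage_preimage]
    simp only [mul_inv_cancel_right, Set.preimage_id']
    exact (integral_congr_ae (ae_restrict_of_ae
      (Lp.coeFn_compMeasurePreserving g (measurePreserving_mul_right μ.inv v)))).symm
  rw [e1, e1, e3, ← map_sub]
  exact (norm_PI_le _ _ _).trans (by rw [norm_sub_rev]; exact hv.le)

omit [SecondCountableTopology G] [MeasurableSpace G] [BorelSpace G] [LocallyCompactSpace G] in
theorem exists_escape (h : ¬ IsIN G) {V K : Set G} (hV : V ∈ 𝓝 (1 : G)) (hK : IsCompact K) :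
    ∃ v ∈ V, ∃ y : G, y * v * y⁻¹ ∉ K := by
  by_contra hc
  push Not at hc
  refine h ⟨{x | ∀ g : G, g * x * g⁻¹ ∈ K}, mem_of_superset hV fun v hv => hc v hv,
    hK.of_isClosed_subset ?_ fun x hx => by simpa using hx 1, fun g x hx g' => ?_⟩
  · simp only [Set.ofPred_forall]
    exact isClosed_iInter fun g => hK.isClosed.preimage (by fun_prop)
  · simpa [mul_assoc] using hx (g' * g)

omit [SecondCountableTopology G] [LocallyCompactSpace G] in
theorem exists_bumps {U : Set G} (hU : IsCompact U) (hU1 : U ∈ 𝓝 (1 : G)) (y : G) :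
    ∃ b : Lp ℂ 1 μ, ‖b‖ ≤ 1 ∧ (∀ᵐ t ∂μ, t * y⁻¹ ∉ U → b t = 0) ∧
      (∀ E, MeasurableSet E → (∀ u ∈ U, u * y ∈ E) → PI μ E b = 1) ∧
      ∀ E, MeasurableSet E → (∀ u ∈ U, u * y ∉ E) → PI μ E b = 0 := by
  set W := (fun t => t * y⁻¹) ⁻¹' U with hW
  have c : IsCompact W := (Homeomorph.mulRight y⁻¹).isCompact_preimage.2 hU
  have n : W ∈ 𝓝 y := (continuous_mul_const y⁻¹).continuousAt.preimage_mem_nhds (by simpa using hU1)
  have p : 0 < μ.real W :=
    ENNReal.toReal_pos (Measure.measure_pos_of_mem_nhds μ n).ne' c.measure_lt_top.ne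
  refine ⟨indicatorConstLp 1 c.measurableSet c.measure_lt_top.ne ((μ.real W)⁻¹ : ℝ), ?_, ?_,
    fun E hE h => ?_, fun E hE h => ?_⟩
  · refine norm_indicatorConstLp_le.trans (le_of_eq ?_)
    rw [Complex.norm_real, Real.norm_of_nonneg (by positivity)]
    simp [p.ne']
  · filter_upwards [indicatorConstLp_coeFn (p := 1) (hs := c.measurableSet)
      (hμs := c.measure_lt_top.ne) (c := (((μ.real W)⁻¹ : ℝ) : ℂ))] with t h1 ht
    rw [h1, Set.indicator_of_notMem (show t ∉ W from ht)]
  · rw [PI_apply, setIntegral_indicatorConstLp hE,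
      Set.inter_eq_left.2 fun t ht => by simpa using h _ ht, Complex.real_smul]
    norm_cast
    exact mul_inv_cancel₀ p.ne'
  · have : W ∩ E = ∅ := Set.eq_empty_of_forall_notMem fun t ht => h _ ht.1 (by simpa using ht.2)
    rw [PI_apply, setIntegral_indicatorConstLp hE, this]
    simp

theorem exists_segal_of_not_IN (h : ¬ IsIN G) :
    ∃ (B : Type) (_ : NonUnitalNormedRing B) (_ : NormedSpace ℂ B) (_ : IsScalarTower ℂ B B)
      (_ : SMulCommClass ℂ B B) (_ : CompleteSpace B) (j : B →ₗ[ℂ] Lp ℂ 1 μ),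
      IsSegalAlgebra μ B j ∧ ¬ IsPseudoAmenable B := by
  have : Fact ((1 : ℝ≥0∞) ≠ ∞) := ⟨ENNReal.one_ne_top⟩
  obtain ⟨d, hd⟩ := TopologicalSpace.exists_dense_seq (Lp ℂ 1 μ)
  let K := CompactExhaustion.choice G
  obtain ⟨U, hU, hU1⟩ := exists_compact_mem_nhds (1 : G)
  choose b b1 b2 b3 b4 using exists_bumps μ hU hU1
  let f : G → Lp ℂ 1 μ := fun y => act μ (regRep μ) (b 1) (b y)
  have f1 : ∀ y, ‖f y‖ ≤ 1 := fun y => (norm_act_le μ _ _ _).trans
    (mul_le_one₀ (b1 1) (norm_nonneg _) (b1 y))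
  have f2 : ∀ y g g', ‖LL μ g (f y) - LL μ g' (f y)‖ ≤ ‖LL μ g (b 1) - LL μ g' (b 1)‖ :=
    fun y g g' => by
      have e : ∀ g, LL μ g (f y) = act μ (regRep μ) (LL μ g (b 1)) (b y) :=
        fun g => (act_LL μ (regRep μ) g _ _).symm
      rw [e, e, ← sub_apply, ← map_sub]
      exact (norm_act_le μ _ _ _).trans (mul_le_of_le_one_right (norm_nonneg _) (b1 y))
  have f3 : ∀ y E (c : ℂ), (∀ t ∈ U, PI μ E (LL μ t (b y)) = c) → PI μ E (f y) = c :=
    fun y E c hc => by
      have e := b3 1 Set.univ MeasurableSet.univ fun _ _ => trivial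
      rw [PI_apply, Measure.restrict_univ] at e
      rw [clm_act, ← one_smul ℂ c, ← e, ← integral_smul_const]
      refine integral_congr_ae ?_
      filter_upwards [b2 1] with t ht
      by_cases h1 : t ∈ U
      · exact congrArg _ (hc t h1)
      · rw [ht (by simpa using h1), zero_smul, zero_smul]
  let ε : ℕ → ℝ := fun n => (1 / 2) ^ (n ^ 2)
  have ε0 : ∀ n, 0 < ε n := fun n => by positivity
  let Gd : ℕ → Lp ℂ 1 μ → G → Prop := fun n s v =>
    ∀ E, ‖PI μ E s - PI μ ((fun t => t * v⁻¹) ⁻¹' E) s‖ ≤ ε n * (1 / 2) ^ n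
  obtain ⟨p, hp⟩ := exists_seq_rec (α := G × G)
    (fun n q => q.2 * q.1 * q.2⁻¹ ∉ (K n)⁻¹ * K n ∧ ∀ m ≤ n, Gd n (d m) q.1)
    (fun n x q => Gd n (f x.2) q.1) fun n F => by
      have e : ∀ s, ∀ᶠ v in 𝓝 (1 : G), Gd n s v := fun s =>
        eventually_right μ s _ (by positivity)
      obtain ⟨v, hv, y, hy⟩ := exists_escape h
        (((eventually_all_finite (Set.finite_Iic n)).2 fun m _ => e (d m)).and
          ((eventually_all_finset F).2 fun x _ => e (f x.2)))
        ((K.isCompact n).inv.mul (K.isCompact n))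
      exact ⟨(v, y), ⟨hy, hv.1⟩, hv.2⟩
  let E : ℕ → Set G := fun n => (fun t => t * (p n).2⁻¹) ⁻¹' K n
  let E' : ℕ → Set G := fun n => (fun t => t * (p n).1⁻¹) ⁻¹' E n
  have mE : ∀ n, MeasurableSet (E n) := fun n =>
    measurable_mul_const _ (K.isCompact n).measurableSet
  have mE' : ∀ n, MeasurableSet (E' n) := fun n => measurable_mul_const _ (mE n)
  let Q : ℕ → Lp ℂ 1 μ →L[ℂ] ℂ := fun n => PI μ (E n) - PI μ (E' n)
  have Q1 : ∀ n s, ‖Q n s‖ ≤ 2 * ‖s‖ := fun n s => norm_PI_sub_le μ _ _ s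
  have Q2 : ∀ n s x, Gd n s (p n).1 → ‖Q n (LL μ x s)‖ ≤ ε n * (1 / 2) ^ n := fun n s x hs => by
    have := hs ((fun t => x * t) ⁻¹' E n)
    have e : (fun t => x * t) ⁻¹' E' n =
        (fun t => t * (p n).1⁻¹) ⁻¹' ((fun t => x * t) ⁻¹' E n) := by
      ext t
      simp only [E', Set.mem_preimage, mul_assoc]
    simp only [Q, sub_apply, PI_LL, e]
    exact this
  let th : ℕ → Lp ℂ 1 μ →L[ℂ] ℂ := fun n => (((ε n)⁻¹ : ℝ) : ℂ) • Q n
  have nth : ∀ n s, ‖th n s‖ = (ε n)⁻¹ * ‖Q n s‖ := fun n s => by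
    simp only [th, smul_apply, norm_smul, Complex.norm_real,
      Real.norm_of_nonneg (inv_pos.2 (ε0 n)).le]
  have th2 : ∀ n s x, Gd n s (p n).1 → ‖th n (LL μ x s)‖ ≤ (1 / 2) ^ n := fun n s x hs => by
    rw [nth, inv_mul_le_iff₀ (ε0 n)]
    exact Q2 n s x hs
  have geo : Tendsto (fun n : ℕ => (1 / 2 : ℝ) ^ n) atTop (𝓝 0) :=
    tendsto_pow_atTop_nhds_zero_of_lt_one (by norm_num) (by norm_num)
  have εle : ∀ n m k : ℕ, k + n ^ 2 ≤ m ^ 2 → ε m ≤ (1 / 2) ^ k * ε n := fun n m k hk => by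
    simp only [ε]
    rw [← pow_add]
    exact pow_le_pow_of_le_one (by norm_num) (by norm_num) hk
  have ε1 : ∀ m, ε m ≤ (1 / 2) ^ m := fun m =>
    pow_le_pow_of_le_one (by norm_num) (by norm_num) (Nat.le_self_pow two_ne_zero m)
  have sm : Summable fun m => ((ε m : ℝ) : ℂ) • f (p m).2 :=
    Summable.of_norm_bounded summable_geometric_two fun m => by
      rw [norm_smul, Complex.norm_real, Real.norm_of_nonneg (ε0 m).le]
      exact (mul_le_of_le_one_right (ε0 m).le (f1 _)).trans (ε1 m)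
  obtain ⟨e, -, he⟩ := mem_SA μ th (∑' m, ((ε m : ℝ) : ℂ) • f (p m).2) (b 1) 1
    (fun n x => Q n (LL μ x (f (p n).2))) (fun n => (1 / 2) ^ n * 2 * 2) 2
    (by simpa using (geo.mul_const 2).mul_const 2)
    (fun n x => by
      classical
      have a1 := (((th n).comp (LL μ x)).hasSum sm.hasSum).update n 0
      have a2 := a1.norm_le_of_bounded (hasSum_geometric_two.mul_left ((1 / 2 : ℝ) ^ n * 2))
        fun m => by
          rcases lt_trichotomy m n with hm | rfl | hm
          · rw [Function.update_of_ne hm.ne, map_smul, norm_smul, Complex.norm_real,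
              Real.norm_of_nonneg (ε0 m).le]
            have := mul_le_mul (ε1 m) (th2 n _ x ((hp n).2 m hm)) (norm_nonneg _) (by positivity)
            refine this.trans ?_
            nlinarith [show (0 : ℝ) < (1 / 2) ^ m * (1 / 2) ^ n by positivity]
          · simp only [Function.update_self, norm_zero]
            positivity
          · rw [Function.update_of_ne hm.ne', map_smul, norm_smul, Complex.norm_real,
              Real.norm_of_nonneg (ε0 m).le, ContinuousLinearMap.comp_apply, nth]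
            have c1 := εle n m (n + m) (by nlinarith)
            have c2 : ‖Q n (LL μ x (f (p m).2))‖ ≤ 2 :=
              (Q1 _ _).trans (by rw [norm_LL]; linarith [f1 (p m).2])
            calc _ ≤ ((1 / 2) ^ (n + m) * ε n) * ((ε n)⁻¹ * 2) := by gcongr
              _ = _ := by rw [pow_add]; field_simp [(ε0 n).ne']
      have a3 : ((th n).comp (LL μ x)) (((ε n : ℝ) : ℂ) • f (p n).2) =
          Q n (LL μ x (f (p n).2)) := by
        rw [map_smul, ContinuousLinearMap.comp_apply]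
        simp only [th, smul_apply, smul_smul]
        rw [← Complex.ofReal_mul, mul_inv_cancel₀ (ε0 n).ne', Complex.ofReal_one, one_smul]
      rwa [a3, zero_sub, neg_add_eq_sub] at a2)
    (fun n x => (Q1 _ _).trans (by rw [norm_LL]; linarith [f1 (p n).2]))
    (fun x => by
      obtain ⟨N, hN⟩ := K.exists_superset_of_isCompact ((isCompact_singleton (x := x)).mul
        (hU.mul hU))
      refine tendsto_const_nhds.congr' (eventually_atTop.2 ⟨N, fun n hn => ?_⟩)
      have hK : ∀ t ∈ U, ∀ u ∈ U, x * (t * u) ∈ K n := fun t ht u hu =>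
        K.subset hn (hN (Set.mul_mem_mul rfl (Set.mul_mem_mul ht hu)))
      simp only [Q, sub_apply, PI_LL]
      rw [f3 _ _ 1, f3 _ _ 0, sub_zero]
      · intro t ht
        rw [PI_LL]
        refine b4 _ _ (measurable_const_mul _ (measurable_const_mul _ (mE' n))) fun u hu h' => ?_
        refine (hp n).1.1 ⟨_, Set.inv_mem_inv.2 h', _, hK t ht u hu, ?_⟩
        simp [mul_assoc]
      · intro t ht
        rw [PI_LL]
        refine b3 _ _ (measurable_const_mul _ (measurable_const_mul _ (mE n))) fun u hu => ?_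
        simpa [E, mul_assoc] using hK t ht u hu)
    (fun n x g g' => by
      rw [← map_sub, LL_mul, LL_mul, ← map_sub]
      refine (Q1 _ _).trans ?_
      rw [norm_LL]
      gcongr
      exact f2 _ _ _)
  refine exists_segal_of μ th d hd (fun m => ?_) e he
  exact mem_SA μ th (d m) 0 0 (fun _ _ => 0)
    (fun n => if m ≤ n then (1 / 2) ^ n else ‖th n‖ * ‖d m‖) 0
    (geo.congr' (eventually_atTop.2 ⟨m, fun n hn => (if_pos hn).symm⟩))
    (fun n x => by
      rw [sub_zero]
      split_ifs with hn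
      · exact th2 n _ x ((hp n).1.2 m hn)
      · exact ((th n).le_opNorm _).trans (by rw [norm_LL]))
    (fun _ _ => norm_zero.le) (fun _ => tendsto_const_nhds) fun _ _ _ _ => by simp

end Pool.Agent.Work.MP_dc0135_an.Hedge
end

-- merged part: Pool.Agent.Work.MP_dc0135_an.Hedge.MainU
section
/-! Every group that is not SIN carries a Segal algebra that is not pseudo-amenable. -/

open MeasureTheory

namespace Pool.Agent.Work.MP_dc0135_an.Hedge

variable {G : Type} [Group G] [TopologicalSpace G] [IsTopologicalGroup G]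
  [LocallyCompactSpace G] [T2Space G] [SecondCountableTopology G] [MeasurableSpace G]
  [BorelSpace G] (μ : Measure G) [μ.IsHaarMeasure]

attribute [local instance] SegalData.algNormedAddCommGroup SegalData.algNormedSpace
  SegalData.algCompleteSpace SegalData.algRing SegalData.algTower SegalData.algComm

theorem exists_segal_of_not_SIN (h : ¬ IsSIN G) :
    ∃ (B : Type) (_ : NonUnitalNormedRing B) (_ : NormedSpace ℂ B) (_ : IsScalarTower ℂ B B)
      (_ : SMulCommClass ℂ B B) (_ : CompleteSpace B) (j : B →ₗ[ℂ] Lp ℂ 1 μ),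
      IsSegalAlgebra μ B j ∧ ¬ IsPseudoAmenable B := by
  by_cases hIN : IsIN G
  · refine ⟨(segalB μ).Alg, inferInstance, inferInstance, inferInstance, inferInstance,
      inferInstance, (segalB μ).j.toLinearMap, (segalB μ).isSegalAlgebra,
      not_pseudoAmenable_of_IN μ hIN h _ (segalB μ).isSegalAlgebra
        (fun a => (Lp.memLp (j2 μ a)).ae_eq (j12 μ a).symm) fun f hf _ => ?_⟩
    exact ⟨(⟨(f, hf.toLp), hf.coeFn_toLp.symm⟩ : B12 μ), rfl⟩
  · exact exists_segal_of_not_IN μ hIN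

end Pool.Agent.Work.MP_dc0135_an.Hedge
end
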