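import Pool.Agent.Work.MP_dc0135_an.Hedge.MainB
import Pool.Agent.Work.MP_dc0135_an.Amenable

/-! The group `{±1}^ℤ ⋊ ℤ` is IN and not SIN; `L¹ ∩ L²` is a Segal algebra on every group. -/

open MeasureTheory Filter Topology

namespace Pool.Agent.Work.MP_dc0135_an.Hedge

theorem isIN_GG : IsIN GG := by
  refine ⟨{x | x.n = 0}, ?_, ?_, ?_⟩
  · exact (GG.continuous_n.isOpen_preimage {0} (isOpen_discrete _)).mem_nhds rfl
  · have e : {x : GG | x.n = 0} = Set.range fun k : KK => GG.mk k 0 := by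
      ext x
      exact ⟨fun h => ⟨x.k, GG.ext rfl h.symm⟩, by rintro ⟨k, rfl⟩; rfl⟩
    rw [e]
    exact isCompact_range (GG.continuous_mk continuous_id continuous_const)
  · intro g x hx
    have hx' : x.n = 0 := hx
    change (g * x * g⁻¹).n = 0
    simp [hx']

theorem not_isSIN_GG : ¬ IsSIN GG := by
  intro h
  have hU : {x : GG | x.k.co 0 = 1} ∈ 𝓝 (1 : GG) :=
    (((KK.continuous_co 0).comp GG.continuous_k).isOpen_preimage {1} (isOpen_discrete _)).mem_nhds
      rfl
  obtain ⟨V, hV, hVU, hc⟩ := h _ hU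
  let d : ℕ → KK := fun n => KK.mk fun j => if j = n then -1 else 1
  have hd : Tendsto d atTop (𝓝 1) := by
    refine tendsto_pi_nhds.2 fun j => tendsto_const_nhds.congr' ?_
    filter_upwards [eventually_gt_atTop j.natAbs] with n hn
    have hj : j ≠ n := by omega
    change (1 : ℤˣ) = if j = n then -1 else 1
    rw [if_neg hj]
  have hd' : Tendsto (fun n => GG.mk (d n) 0) atTop (𝓝 (1 : GG)) :=
    ((GG.continuous_mk continuous_id continuous_const).tendsto (1 : KK)).comp hd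
  obtain ⟨n, hn⟩ := (hd'.eventually hV).exists
  have h1 : (GG.mk 1 n * GG.mk (d n) 0 * (GG.mk 1 n)⁻¹).k.co 0 = 1 := hVU (hc _ _ hn)
  simp [d] at h1

attribute [local instance] SegalData.algNormedAddCommGroup SegalData.algNormedSpace
  SegalData.algCompleteSpace SegalData.algRing SegalData.algTower SegalData.algComm

theorem exists_L12 {G : Type} [Group G] [TopologicalSpace G] [IsTopologicalGroup G]
    [LocallyCompactSpace G] [T2Space G] [SecondCountableTopology G] [MeasurableSpace G]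
    [BorelSpace G] (μ : Measure G) [μ.IsHaarMeasure] :
    ∃ (A : Type) (_ : NonUnitalNormedRing A) (_ : NormedSpace ℂ A) (_ : IsScalarTower ℂ A A)
      (_ : SMulCommClass ℂ A A) (_ : CompleteSpace A) (j : A →ₗ[ℂ] Lp ℂ 1 μ),
      IsSegalAlgebra μ A j ∧ ∀ f : Lp ℂ 1 μ, (∃ a : A, j a = f) ↔ MemLp f 2 μ :=
  ⟨(segalB μ).Alg, inferInstance, inferInstance, inferInstance, inferInstance, inferInstance,
    (segalB μ).j.toLinearMap, (segalB μ).isSegalAlgebra, fun f =>
      ⟨fun ⟨a, ha⟩ => ha ▸ (memLp_congr_ae (j12 μ a)).2 (Lp.memLp _),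
        fun hf => ⟨(⟨(f, hf.toLp), hf.coeFn_toLp.symm⟩ : B12 μ), rfl⟩⟩⟩

/-- `L¹ ∩ L²` on an amenable group need not be pseudo-amenable. -/
theorem example_L12 :
    ∃ (G : Type) (_ : Group G) (_ : TopologicalSpace G) (_ : IsTopologicalGroup G)
      (_ : LocallyCompactSpace G) (_ : T2Space G) (_ : SecondCountableTopology G)
      (_ : MeasurableSpace G) (_ : BorelSpace G) (μ : Measure G) (_ : μ.IsHaarMeasure),
      IsAmenable μ ∧ IsIN G ∧ ¬ IsSIN G ∧
      ∃ (A : Type) (_ : NonUnitalNormedRing A) (_ : NormedSpace ℂ A) (_ : IsScalarTower ℂ A A)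
        (_ : SMulCommClass ℂ A A) (_ : CompleteSpace A) (j : A →ₗ[ℂ] Lp ℂ 1 μ),
        IsSegalAlgebra μ A j ∧ (∀ f : Lp ℂ 1 μ, (∃ a : A, j a = f) ↔ MemLp f 2 μ) ∧
          ¬ IsPseudoAmenable A := by
  obtain ⟨A, i1, i2, i3, i4, i5, j, hA, hj⟩ := exists_L12 mG
  exact ⟨GG, inferInstance, inferInstance, inferInstance, inferInstance, inferInstance,
    inferInstance, inferInstance, inferInstance, mG, inferInstance, isAmenable_GG, isIN_GG,
    not_isSIN_GG, A, i1, i2, i3, i4, i5, j, hA, hj,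
    not_pseudoAmenable_of_IN mG isIN_GG not_isSIN_GG j hA (fun a => (hj _).1 ⟨a, rfl⟩)
      fun f hf _ => (hj f).2 hf⟩

end Pool.Agent.Work.MP_dc0135_an.Hedge
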